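import Pool.Agent.N421.KD.Main

set_option autoImplicit false

/-!
# Cutting long rows
-/

namespace Pool.Agent.N421.KD

open Pool.Agent.R959.LD2

noncomputable section

open Classical in
/-- rank of `v` in the support of `f` for a fixed enumeration of `V` -/
def rk {V : Type} [Fintype V] (f : V → ℝ) (v : V) : ℕ :=
  ((supp f).filter (fun u => (Fintype.equivFin V u : ℕ) < (Fintype.equivFin V v : ℕ))).card

theorem rk_lt {V : Type} [Fintype V] (f : V → ℝ) (u v : V) (hu : u ∈ supp f)
    (h : (Fintype.equivFin V u : ℕ) < (Fintype.equivFin V v : ℕ)) : rk f u < rk f v := by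
  classical
  unfold rk
  refine Finset.card_lt_card ?_
  rw [Finset.ssubset_iff_of_subset]
  · refine ⟨u, ?_, ?_⟩
    · rw [Finset.mem_filter]
      exact ⟨hu, h⟩
    · rw [Finset.mem_filter]
      intro h1
      exact lt_irrefl _ h1.2
  · intro w hw
    rw [Finset.mem_filter] at hw ⊢
    exact ⟨hw.1, hw.2.trans h⟩

theorem rk_inj {V : Type} [Fintype V] (f : V → ℝ) (u v : V) (hu : u ∈ supp f) (hv : v ∈ supp f)
    (h : rk f u = rk f v) : u = v := by
  rcases lt_trichotomy ((Fintype.equivFin V u : ℕ)) ((Fintype.equivFin V v : ℕ)) with h1 | h1 | h1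
  · exact absurd h (rk_lt f u v hu h1).ne
  · exact (Fintype.equivFin V).injective (Fin.ext h1)
  · exact absurd h (rk_lt f v u hv h1).ne'

theorem rk_le {V : Type} [Fintype V] (f : V → ℝ) (v : V) : rk f v ≤ (supp f).card := by
  classical
  exact Finset.card_filter_le _ _

theorem rk_le_card {V : Type} [Fintype V] (f : V → ℝ) (v : V) : rk f v ≤ Fintype.card V :=
  (rk_le f v).trans (Finset.card_le_univ _)

/-- Rows of any length: they are cut into pieces with at most `D` nonzero entries. -/
theorem cut : ∃ C : ℝ, 0 < C ∧ ∀ (D : ℕ), 1 ≤ D →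
    ∀ (V W : Type) [Fintype V] [Fintype W] (A : W → V → ℝ) (a : V → ℝ),
    (∀ v, ∑ R, A R v ^ 2 ≤ 1) → (∀ v, |a v| ≤ 1) →
    ∃ x : V → ℝ, (∀ v, x v = 1 ∨ x v = -1) ∧ (∀ v, |a v| = 1 → x v = a v) ∧
      ∀ R, |∑ v, A R v * (x v - a v)| ≤
        C * (1 + Real.log D) *
          (1 + ((supp (fun v => A R v * (1 - |a v|))).card : ℝ) / D) := by
  classical
  obtain ⟨C, hC, h⟩ := main
  refine ⟨C, hC, ?_⟩
  intro D hD V W _ _ A a hcol ha
  have hD1 : (1 : ℝ) ≤ D := by exact_mod_cast hD
  have hD0 : (0 : ℝ) < D := by linarith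
  set r : W → V → ℕ := fun R v => rk (fun v => A R v * (1 - |a v|)) v / D with hr
  have hrV : ∀ R v, r R v < Fintype.card V + 1 := by
    intro R v
    have h1 : r R v ≤ rk (fun v => A R v * (1 - |a v|)) v := Nat.div_le_self _ _
    have h2 := rk_le_card (fun v => A R v * (1 - |a v|)) v
    omega
  set A' : W × Fin (Fintype.card V + 1) → V → ℝ := fun p v =>
    if r p.1 v = (p.2 : ℕ) then A p.1 v else 0 with hA'
  obtain ⟨x, x1, x2, x3⟩ := h D hD1 V (W × Fin (Fintype.card V + 1)) A' a (by
    intro v
    rw [Fintype.sum_prod_type]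
    refine le_trans (Finset.sum_le_sum fun R _ => ?_) (hcol v)
    have h1 : ∀ i : Fin (Fintype.card V + 1), A' (R, i) v ^ 2 =
        if i = ⟨r R v, hrV R v⟩ then A R v ^ 2 else 0 := by
      intro i
      simp only [hA']
      by_cases hi : r R v = (i : ℕ)
      · rw [if_pos hi, if_pos (Fin.ext hi.symm)]
      · rw [if_neg hi, if_neg (fun h2 => hi (by rw [h2]))]
        norm_num
    simp only [h1]
    rw [Finset.sum_ite_eq']
    simp) ha (by
    rintro ⟨R, i⟩
    rw [Nat.cast_le]
    calc (supp (fun v => A' (R, i) v * (1 - |a v|))).card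
        ≤ (Finset.Ico ((i : ℕ) * D) ((i : ℕ) * D + D)).card := by
          refine Finset.card_le_card_of_injOn (rk (fun v => A R v * (1 - |a v|))) ?_ ?_
          · intro v hv
            have hv' := (mem_supp _ _).1 (Finset.mem_coe.1 hv)
            simp only [hA'] at hv'
            split_ifs at hv' with h1
            · rw [Finset.coe_Ico, Set.mem_Ico]
              simp only [hr] at h1
              rw [← h1]
              constructor
              · exact Nat.div_mul_le_self _ _
              · exact Nat.lt_div_mul_add (by omega)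
            · exact absurd (zero_mul _) hv'
          · intro u hu v hv huv
            have hsub : ∀ w, w ∈ (supp (fun v => A' (R, i) v * (1 - |a v|)) : Set V) →
                w ∈ supp (fun v => A R v * (1 - |a v|)) := by
              intro w hw
              have hw' := (mem_supp _ _).1 (Finset.mem_coe.1 hw)
              simp only [hA'] at hw'
              rw [mem_supp]
              split_ifs at hw' with h1
              · exact hw'
              · exact absurd (zero_mul _) hw'
            exact rk_inj _ u v (hsub u hu) (hsub v hv) huv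
      _ = D := by simp)
  refine ⟨x, x1, x2, fun R => ?_⟩
  set f : V → ℝ := fun v => A R v * (1 - |a v|) with hf
  set N : ℕ := (supp f).card / D with hN
  have hrN : ∀ v, r R v ≤ N := fun v => Nat.div_le_div_right (rk_le f v)
  have h1 : ∑ v, A R v * (x v - a v) =
      ∑ i ∈ Finset.range (N + 1), ∑ v, (if r R v = i then A R v else 0) * (x v - a v) := by
    rw [Finset.sum_comm]
    refine Finset.sum_congr rfl fun v _ => ?_
    rw [← Finset.sum_mul, Finset.sum_ite_eq]
    rw [if_pos (Finset.mem_range.2 (Nat.lt_succ_of_le (hrN v)))]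
  have hlog : 0 ≤ Real.log D := Real.log_nonneg hD1
  have h2 : ∀ i ∈ Finset.range (N + 1),
      |∑ v, (if r R v = i then A R v else 0) * (x v - a v)| ≤ C * (1 + Real.log D) := by
    intro i hi
    have h3 : i < Fintype.card V + 1 := by
      have h4 : N ≤ Fintype.card V :=
        (Nat.div_le_self _ _).trans (Finset.card_le_univ _)
      have := Finset.mem_range.1 hi
      omega
    exact x3 (R, ⟨i, h3⟩)
  rw [h1]
  refine (Finset.abs_sum_le_sum_abs _ _).trans ((Finset.sum_le_sum h2).trans ?_)
  rw [Finset.sum_const, Finset.card_range, nsmul_eq_mul, mul_comm]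
  refine mul_le_mul_of_nonneg_left ?_ (by positivity)
  push_cast
  have h5 : ((N : ℕ) : ℝ) ≤ ((supp f).card : ℝ) / D := Nat.cast_div_le
  linarith

end

end Pool.Agent.N421.KD
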