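import Pool.Agent.N421.KD.Shift
import Pool.Agent.R959.LD2.CORE

set_option autoImplicit false
set_option linter.unusedSectionVars false
set_option linter.unusedVariables false

/-!
# One phase, with explicit parameters

Adapted from `Pool.Agent.R959.LD3.PHASE3`. The rows may have arbitrarily large norm; the mass of a
row is the sum of `√(1 - |a_v|)` over its support.
-/

open MeasureTheory ProbabilityTheory

namespace Pool.Agent.N421.KD

open Pool.Agent.H320R2.LD Pool.Agent.H320R2.LD.PHASE Pool.Agent.R959.LD2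

noncomputable section

open Classical in
/-- indicator of the support of a matrix -/
def ind {V W : Type} (A : W → V → ℝ) (R : W) (v : V) : ℝ := if A R v = 0 then 0 else 1

theorem ind_sq {V W : Type} (A : W → V → ℝ) (R : W) (v : V) : ind A R v ^ 2 * 1 ≤ 1 := by
  unfold ind
  split_ifs <;> norm_num

theorem ind_zero {V W : Type} (A : W → V → ℝ) (R : W) (v : V) (h : A R v = 0) :
    ind A R v = 0 := by
  unfold ind
  rw [if_pos h]

/-- the matrix of one phase -/
def sc {V W : Type} (A : W → V → ℝ) (a : V → ℝ) (R : W) (v : V) : ℝ := A R v * rho a v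

section
variable {V W : Type} [Fintype V] [Fintype W] {A : W → V → ℝ} {a : V → ℝ}

theorem sc_sq (ha : ∀ v, |a v| ≤ 1) (R : W) (v : V) : sc A a R v ^ 2 ≤ A R v ^ 2 := by
  unfold sc
  rw [mul_pow]
  have h1 := rho_nonneg ha v
  have h2 := rho_le_one (a := a) v
  exact mul_le_of_le_one_right (sq_nonneg _) (by nlinarith)

theorem sc_col (ha : ∀ v, |a v| ≤ 1) (c : ℝ) (v : V) (h : ∑ R, A R v ^ 2 ≤ c) :
    ∑ R, sc A a R v ^ 2 ≤ c :=
  (Finset.sum_le_sum fun R _ => sc_sq ha R v).trans h

theorem sc_abs (ha : ∀ v, |a v| ≤ 1) (h : ∀ v, ∑ R, A R v ^ 2 ≤ 1) (R : W) (v : V) :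
    |sc A a R v| ≤ 1 := by
  have h1 : sc A a R v ^ 2 ≤ 1 := by
    refine le_trans ?_ (sc_col ha 1 v (h v))
    exact Finset.single_le_sum (f := fun R => sc A a R v ^ 2)
      (fun u _ => sq_nonneg _) (Finset.mem_univ R)
  exact (sq_le_one_iff_abs_le_one _).1 h1

theorem sc_supp (R : W) (v : V) (h : sc A a R v ≠ 0) : A R v ≠ 0 := by
  intro h0
  apply h
  unfold sc
  rw [h0]; simp

theorem sc_row (ha : ∀ v, |a v| ≤ 1) (h : ∀ v, ∑ R, A R v ^ 2 ≤ 1) (N : ℝ)
    (hN : ∀ R, ((supp (A R)).card : ℝ) ≤ N) (R : W) : ∑ v, sc A a R v ^ 2 ≤ N := by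
  refine le_trans ?_ (hN R)
  have h1 : ∑ v, sc A a R v ^ 2 = ∑ v ∈ supp (A R), sc A a R v ^ 2 := by
    symm
    refine Finset.sum_subset (Finset.subset_univ _) fun v _ hv => ?_
    have : A R v = 0 := by
      by_contra h0
      exact hv ((mem_supp _ _).mpr h0)
    unfold sc
    rw [this]; simp
  rw [h1]
  calc ∑ v ∈ supp (A R), sc A a R v ^ 2 ≤ ∑ v ∈ supp (A R), (1 : ℝ) := by
        refine Finset.sum_le_sum fun v _ => ?_
        have := sc_abs ha h R v
        exact (sq_le_one_iff_abs_le_one _).2 this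
    _ = _ := by rw [Finset.sum_const, nsmul_eq_mul, mul_one]

theorem sc_op (ha : ∀ v, |a v| ≤ 1) (h : ∀ v, ∑ R, A R v ^ 2 ≤ 1) (N : ℝ) (hN0 : 0 ≤ N)
    (hN : ∀ R, ((supp (A R)).card : ℝ) ≤ N) (x : V → ℝ) :
    ∑ R, (∑ v, |sc A a R v| * |x v|) ^ 2 ≤ N * nsq x := by
  have h1 : ∀ R, (∑ v, |sc A a R v| * |x v|) ^ 2 ≤ N * ∑ v, sc A a R v ^ 2 * x v ^ 2 := by
    intro R
    have e1 : ∑ v, |sc A a R v| * |x v| = ∑ v ∈ supp (A R), 1 * (|sc A a R v| * |x v|) := by
      symm
      simp only [one_mul]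
      refine Finset.sum_subset (Finset.subset_univ _) fun v _ hv => ?_
      have : A R v = 0 := by
        by_contra h0
        exact hv ((mem_supp _ _).mpr h0)
      unfold sc
      rw [this]; simp
    have cs := Finset.sum_mul_sq_le_sq_mul_sq (supp (A R)) (fun _ => (1:ℝ))
      (fun v => |sc A a R v| * |x v|)
    rw [e1]
    refine cs.trans ?_
    have e2 : ∑ v ∈ supp (A R), (1:ℝ) ^ 2 = ((supp (A R)).card : ℝ) := by
      simp
    rw [e2]
    have e3 : ∑ v ∈ supp (A R), (|sc A a R v| * |x v|) ^ 2 ≤ ∑ v, sc A a R v ^ 2 * x v ^ 2 := by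
      have e4 : ∀ v, (|sc A a R v| * |x v|) ^ 2 = sc A a R v ^ 2 * x v ^ 2 := by
        intro v
        rw [mul_pow, sq_abs, sq_abs]
      simp only [e4]
      exact Finset.sum_le_sum_of_subset_of_nonneg (Finset.subset_univ _)
        (fun v _ _ => by positivity)
    exact mul_le_mul (hN R) e3 (Finset.sum_nonneg fun v _ => by positivity) hN0
  calc ∑ R, (∑ v, |sc A a R v| * |x v|) ^ 2
      ≤ ∑ R, N * ∑ v, sc A a R v ^ 2 * x v ^ 2 := Finset.sum_le_sum fun R _ => h1 R
    _ = N * ∑ v, (∑ R, sc A a R v ^ 2) * x v ^ 2 := by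
        rw [← Finset.mul_sum, Finset.sum_comm]
        congr 1
        refine Finset.sum_congr rfl fun v _ => ?_
        rw [Finset.sum_mul]
    _ ≤ N * ∑ v, 1 * x v ^ 2 := by
        refine mul_le_mul_of_nonneg_left ?_ hN0
        exact Finset.sum_le_sum fun v _ =>
          mul_le_mul_of_nonneg_right (sc_col ha 1 v (h v)) (sq_nonneg _)
    _ = N * nsq x := by simp [nsq]

theorem sc_disc (x : V → ℝ) (R : W) :
    ∑ v, A R v * (nw a x v - a v) = eta (sc A a) x R := by
  unfold eta
  refine Finset.sum_congr rfl fun v _ => ?_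
  unfold nw sc
  ring

end

open Classical in
/-- The assembly with explicit parameters. -/
theorem core (hSOL : St_SOL) (hLOC : St_LOC) (hSH : St_SH) (hTWO : St_TWO) (hP1 : St_POT1)
    (hP2 : St_POT2) (hDEP : St_DEP) (hLLL : St_LLL) (hFAR : St_FAR) (hGEX : St_GEX)
    (hCONC : St_CONC)
    {V W : Type} [Fintype V] [Fintype W] (A : W → V → ℝ) (a : V → ℝ) (s c1 N1 : ℝ) (D m : ℕ)
    (hcol : ∀ v, ∑ R, A R v ^ 2 ≤ c1) (hc1 : c1 ≤ 1) (hc10 : 0 ≤ c1) (hN1 : 1 ≤ N1)
    (hrow : ∀ R, ((supp (A R)).card : ℝ) ≤ N1) (hrowD : ∀ R, (supp (A R)).card ≤ D)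
    (hcolD : ∀ v, (supp (fun R => A R v)).card ≤ D)
    (ha : ∀ v, |a v| ≤ 1) (hs : 0 < s) (hPhi : ∀ R, Phi (ind A) a R ≤ s)
    (M K w0 α q qb ε c Ch : ℝ)
    (hM : M = 400) (hK : K = 1) (hw0 : 0 < w0) (hw2 : w0 ≤ 1/1000)
    (hc : c = 1 / 10 ^ 12)
    (hq : 2 * (1 + 2 * M) ≤ q) (hqw : w0 ≤ q⁻¹) (hα : 0 < α) (hα1 : α ≤ 1) (hm : 1 ≤ m)
    (hCT : 8 * α ^ 2 * q ^ 4 * N1 ≤ 1)
    (hqb : 0 < qb) (hqb1 : qb ≤ 1) (hε : 0 < ε)
    (hpath : (2 * (D : ℝ) ^ 2) ^ (4 * m) * Real.exp (-(m : ℝ) * q ^ 2 / (4 * M ^ 2)) ≤ qb ^ 2)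
    (hεq : ε + 2 * qb ≤ 1 / (1000 * N1))
    (hCh : 0 < Ch) (hEH : ∀ (z : (V → ℝ) → (V → ℝ)),
      (∀ y, VI (sc A a) (pf K w0) y (z y)) → ∀ R,
      Integrable (fun g => hf K w0 (eta (sc A a) (z (M • g)) R)) (gam V) ∧
      ∫ g, hf K w0 (eta (sc A a) (z (M • g)) R) ∂(gam V) ≤ Ch)
    (hKs : 16 * (c1 * Ch) ≤ 1 / 1000)
    (hfin : 4 * (Real.exp (-(c * s)) + 2 * Real.exp (-((w0⁻¹) ^ 4 / M ^ 2))
      + D * (2 * qb + 2 * Real.exp (-(ε ^ 2 * Real.exp (4 * α * m) / (16 * M ^ 2)))))
      * (((D ^ 2 + 1) ^ (2 * (4 * m) + 1) : ℕ) : ℝ) ≤ 1)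
    (z : (V → ℝ) → (V → ℝ)) (hz : ∀ y, VI (sc A a) (pf K w0) y (z y)) :
    ∃ a' : V → ℝ, (∀ v, |a' v| ≤ 1) ∧ (∀ R, Phi (ind A) a' R ≤ 4/5 * s) ∧
      (∀ v, |a v| = 1 → a' v = a v) ∧
      ∀ R, |∑ v, A R v * (a' v - a v)| ≤ 4 := by
  have hM0 : 0 < M := by rw [hM]; norm_num
  have hK1 : 1 ≤ K := hK.ge
  have hw1 : w0 ≤ 1 := by linarith
  have hN10 : 0 < N1 := by linarith
  have hA3 : ∀ v, ∑ R, A R v ^ 2 ≤ 1 := fun v => (hcol v).trans hc1
  set b := sc A a with hb
  have hbrow : ∀ R, ∑ v, b R v ^ 2 ≤ N1 ^ 2 := fun R =>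
    (sc_row ha hA3 N1 hrow R).trans (by nlinarith)
  have hbcol : ∀ v, ∑ R, b R v ^ 2 ≤ c1 := fun v => sc_col ha c1 v (hcol v)
  obtain ⟨hodd, hlip, hlipv, hlipR, -, -⟩ := hSOL V W b K w0 z hK1 hw0 hw1 hz
  have hzb : ∀ y v, |z y v| ≤ 1 := fun y v => (hz y).1 v
  -- supports
  obtain ⟨I, hI⟩ : ∃ I : W → V → Prop, ∀ R v, I R v ↔ A R v ≠ 0 := ⟨_, fun _ _ => Iff.rfl⟩
  have hbI : ∀ R v, b R v ≠ 0 → I R v := fun R v h => (hI R v).2 (sc_supp R v h)
  have hAI : ∀ R v, ¬ I R v → A R v = 0 := fun R v h => by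
    by_contra h0
    exact h ((hI R v).2 h0)
  have hfilt : ∀ R, (Finset.univ.filter (fun v => I R v)) = supp (A R) := by
    intro R
    ext v
    rw [Finset.mem_filter, mem_supp, hI]
    simp
  have hcardR : ∀ R, (Finset.univ.filter (fun v => I R v)).card ≤ D := by
    intro R
    rw [hfilt]
    exact hrowD R
  have hcardR1 : ∀ R, ((Finset.univ.filter (fun v => I R v)).card : ℝ) ≤ N1 := by
    intro R
    rw [hfilt]
    exact hrow R
  have hcardV : ∀ v, (Finset.univ.filter (fun R => I R v)).card ≤ D := by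
    intro v
    have : (Finset.univ.filter (fun R => I R v)) = supp (fun R => A R v) := by
      ext R
      rw [Finset.mem_filter, mem_supp, hI]
      simp
    rw [this]
    exact hcolD v
  have hncR : ∀ R, {v | I R v}.ncard ≤ D := by
    intro R
    rw [Set.ncard_eq_toFinset_card']
    convert hcardR R using 2
    ext v; simp
  have hncV : ∀ v, {R | I R v}.ncard ≤ D := by
    intro v
    rw [Set.ncard_eq_toFinset_card']
    convert hcardV v using 2
    ext R; simp
  set e0 : ℝ := 1 / (1000 * N1) with he0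
  have he0p : 0 < e0 := by rw [he0]; positivity
  have he01 : e0 ≤ 1 / 1000 := by
    rw [he0]
    refine one_div_le_one_div_of_le (by norm_num) ?_
    linarith
  have hOPb : ∀ x : V → ℝ, ∑ R, (∑ v, |b R v| * |x v|) ^ 2 ≤ N1 * nsq x := fun x =>
    sc_op ha hA3 N1 hN10.le hrow x
  -- locality
  set X : V → (V → ℝ) → ℝ := fun v => XX z M (ball I (4 * m) v) v with hX
  set δ1 : ℝ := 2 * qb + 2 * Real.exp (-(ε ^ 2 * Real.exp (4 * α * m) / (16 * M ^ 2))) with hδ1
  have hloc : ∀ v, (gam V).real {g | ε + 2 * qb < |X v g - z (M • g) v|} ≤ δ1 := by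
    intro v
    exact hLOC V W b K w0 M α q qb ε N1 D m z I hK1 hw0 hw1 hz hbI
      hncR hncV hM0 hα hα1 hq hqw hN10.le hOPb hCT hqb hqb1 hε hm hpath v
  -- expected free mass
  have hfree : ∀ v, ∫ g, (1 - |z (M • g) v|) ∂(gam V) ≤ 6 / 1000 := by
    intro v
    have h1 := mean hSH hTWO hSOL hP1 hP2 b K w0 M (w0 / (2 * N1)) z hK1 hw0 hw1 N1 hN1 hbrow hz
      hM0 (by positivity) (by field_simp; exact le_rfl) (fun R => (hEH z hz R).1) v
    have h2 : ∑ R, b R v ^ 2 * ∫ g, hf K w0 (eta b (z (M • g)) R) ∂(gam V) ≤ c1 * Ch := by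
      calc ∑ R, b R v ^ 2 * ∫ g, hf K w0 (eta b (z (M • g)) R) ∂(gam V)
          ≤ ∑ R, b R v ^ 2 * Ch :=
            Finset.sum_le_sum fun R _ =>
              mul_le_mul_of_nonneg_left (hEH z hz R).2 (sq_nonneg _)
        _ = (∑ R, b R v ^ 2) * Ch := by rw [Finset.sum_mul]
        _ ≤ c1 * Ch := mul_le_mul_of_nonneg_right (hbcol v) hCh.le
    have h3 : (1 : ℝ) / M = 1 / 400 := by rw [hM]
    have h4 : w0 / (2 * N1) ≤ w0 := by
      rw [div_le_iff₀ (by positivity)]
      nlinarith
    rw [h3] at h1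
    linarith
  have hzc : ∀ v, Continuous (fun g => z (M • g) v) := fun v =>
    lip_continuous (zM_lip hM0 hlipv v)
  have hG : ∀ v, ∫ g, Gp (sg a v * z (M • g) v) ∂(gam V) ≤ 3 / 4 := by
    intro v
    refine hGEX V (fun g => z (M • g) v) (hzc v) (fun g => hzb _ _) ?_ (hfree v) (sg a v)
      (sg_cases a v)
    intro g
    have h1 : M • (-g) = -(M • g) := smul_neg _ _
    show z (M • (-g)) v = - z (M • g) v
    rw [h1, hodd]; rfl
  -- progress
  set F : W → (V → ℝ) → ℝ := fun R g => FF (ind A) a R (z (M • g)) with hF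
  have hEF : ∀ R, ∫ g, F R g ∂(gam V) ≤ 3 / 4 * s := by
    intro R
    have h1 : ∫ g, F R g ∂(gam V) = ∑ v, ind A R v ^ 2 * Real.sqrt (rho a v) *
        ∫ g, Gp (sg a v * z (M • g) v) ∂(gam V) := by
      rw [hF]
      unfold FF
      rw [integral_finsetSum]
      · refine Finset.sum_congr rfl fun v _ => ?_
        rw [integral_const_mul]
      · intro v _
        refine Integrable.const_mul ?_ _
        refine Integrable.of_bound (C := 2) ?_ ?_
        · exact (Gp_continuous.comp (continuous_const.mul (hzc v))).aestronglyMeasurable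
        · refine Filter.Eventually.of_forall fun g => ?_
          rw [Real.norm_eq_abs]
          refine Gp_bdd _ ?_
          rw [abs_mul, sg_abs, one_mul]; exact hzb _ _
    rw [h1]
    have h2 : ∑ v, ind A R v ^ 2 * Real.sqrt (rho a v) *
        ∫ g, Gp (sg a v * z (M • g) v) ∂(gam V) ≤
        ∑ v, ind A R v ^ 2 * Real.sqrt (rho a v) * (3 / 4) :=
      Finset.sum_le_sum fun v _ => mul_le_mul_of_nonneg_left (hG v) (by positivity)
    refine h2.trans ?_
    rw [← Finset.sum_mul]
    have h3 : ∑ v, ind A R v ^ 2 * Real.sqrt (rho a v) ≤ s := hPhi R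
    linarith
  have hFlip : ∀ R, Lip (10 * Real.sqrt (s / 1) * M) (F R) := by
    intro R x y
    refine (FF_lip 1 one_pos ha hs (fun R v => ind_sq A R v) R (hPhi R) (z (M • x))
      (z (M • y))).trans ?_
    rw [mul_assoc (10 * Real.sqrt (s / 1))]
    refine mul_le_mul_of_nonneg_left ?_ (by positivity)
    refine (hlip (M • y) (M • x)).trans ?_
    rw [← smul_sub, nrm_smul, abs_of_pos hM0]
  have hFP : ∀ R, (gam V).real {g | (∫ y, F R y ∂(gam V)) + s / 100 ≤ F R g}
      ≤ Real.exp (-(c * s)) := by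
    intro R
    have hL : 0 < 10 * Real.sqrt (s / 1) * M := by positivity
    refine (hCONC V (F R) _ hL (hFlip R) (s / 100) (by positivity)).trans ?_
    rw [Real.exp_le_exp]
    have h1 : (10 * Real.sqrt (s / 1) * M) ^ 2 = 100 * (s / 1) * 160000 := by
      rw [mul_pow, mul_pow, Real.sq_sqrt (by positivity), hM]; norm_num
    rw [h1, hc, neg_div, neg_le_neg_iff, le_div_iff₀ (by positivity)]
    have h2 : (1 / 10 ^ 12 * s) * (4 * (100 * (s / 1) * 160000)) = 64 / 10 ^ 6 * s ^ 2 := by
      field_simp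
      ring
    rw [h2]
    nlinarith [sq_nonneg s]
  -- the events
  have hfar := fun R => hFAR V W b K w0 M z hK1 hw0 hw1 hz hM0 R
  set E : W → Set (V → ℝ) := fun R => {g | 77/100 * s < FF (ind A) a R (fun v => X v g) ∨
    K + 3 < |eta b (fun v => X v g) R|} with hE
  have hXc : ∀ v, Continuous (X v) := fun v => lip_continuous (XX_lip hM0 hlipv hzb _ v)
  have hXb : ∀ v g, |X v g| ≤ 1 := fun v g => XX_abs hzb _ v g
  have hEm : ∀ R, MeasurableSet (E R) := by
    intro R
    have hER : E R = {g | 77/100 * s < FF (ind A) a R (fun v => X v g)} ∪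
      {g | K + 3 < |eta b (fun v => X v g) R|} := rfl
    rw [hER]
    refine MeasurableSet.union ?_ ?_
    · refine measurableSet_lt measurable_const (Continuous.measurable ?_)
      unfold FF
      refine continuous_finsetSum _ fun v _ => ?_
      exact continuous_const.mul (Gp_continuous.comp (continuous_const.mul (hXc v)))
    · refine measurableSet_lt measurable_const (Continuous.measurable ?_)
      refine Continuous.abs ?_
      unfold eta
      exact continuous_finsetSum _ fun v _ => continuous_const.mul (hXc v)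
  have hball : ∀ R v, I R v → ball I (4 * m) v ⊆ rball I (4 * m) R := by
    intro R v hv u hu
    unfold rball
    rw [Finset.mem_filter]
    exact ⟨Finset.mem_univ _, v, hv, hu⟩
  have hXdep : ∀ R v, I R v → ∀ x y : V → ℝ, (∀ u ∈ rball I (4 * m) R, x u = y u) →
      X v x = X v y := by
    intro R v hv x y hxy
    exact PHASE.XX_dep _ v x y fun u hu => hxy u (hball R v hv hu)
  have hEdep : ∀ R, ∀ x y : V → ℝ, (∀ u ∈ rball I (4 * m) R, x u = y u) →
      (x ∈ E R → y ∈ E R) := by
    intro R x y hxy hx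
    have h1 : FF (ind A) a R (fun v => X v x) = FF (ind A) a R (fun v => X v y) := by
      unfold FF
      refine Finset.sum_congr rfl fun v _ => ?_
      by_cases hv : I R v
      · show ind A R v ^ 2 * Real.sqrt (rho a v) * Gp (sg a v * X v x)
          = ind A R v ^ 2 * Real.sqrt (rho a v) * Gp (sg a v * X v y)
        rw [hXdep R v hv x y hxy]
      · have : ind A R v = 0 := ind_zero A R v (hAI R v hv)
        rw [this]; simp
    have h2 : eta b (fun v => X v x) R = eta b (fun v => X v y) R := by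
      unfold eta
      refine Finset.sum_congr rfl fun v _ => ?_
      by_cases hv : I R v
      · show b R v * X v x = b R v * X v y
        rw [hXdep R v hv x y hxy]
      · have : b R v = 0 := by
          by_contra h0
          exact hv (hbI R v h0)
        rw [this]; simp
    show 77/100 * s < FF (ind A) a R (fun v => X v y) ∨ K + 3 < |eta b (fun v => X v y) R|
    rw [← h1, ← h2]
    exact hx
  have hEp : ∀ R, (gam V).real (E R) ≤ Real.exp (-(c * s))
      + 2 * Real.exp (-((w0⁻¹) ^ 4 / M ^ 2)) + D * δ1 := by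
    intro R
    set S := Finset.univ.filter (fun v => I R v) with hS
    have hsub : E R ⊆ ({g | (∫ y, F R y ∂(gam V)) + s / 100 ≤ F R g} ∪
        {g | K + 2 ≤ |eta b (z (M • g)) R|}) ∪
        ⋃ v ∈ S, {g | ε + 2 * qb < |X v g - z (M • g) v|} := by
      intro g hg
      by_contra hng
      rw [Set.mem_union, Set.mem_union, not_or, not_or] at hng
      obtain ⟨⟨h1, h2⟩, h3⟩ := hng
      have h1' : F R g < (∫ y, F R y ∂(gam V)) + s / 100 := not_le.1 h1
      have h2' : |eta b (z (M • g)) R| < K + 2 := not_le.1 h2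
      have h3' : ∀ v, I R v → |X v g - z (M • g) v| ≤ e0 := by
        intro v hv
        by_contra h4
        apply h3
        rw [Set.mem_iUnion₂]
        refine ⟨v, by rw [hS, Finset.mem_filter]; exact ⟨Finset.mem_univ _, hv⟩, ?_⟩
        show ε + 2 * qb < |X v g - z (M • g) v|
        exact lt_of_le_of_lt hεq (not_le.1 h4)
      -- first alternative
      have h5 : FF (ind A) a R (fun v => X v g) ≤ F R g + s / 100 := by
        have h6 : FF (ind A) a R (fun v => X v g) - F R g ≤
            ∑ v, ind A R v ^ 2 * Real.sqrt (rho a v) * (1 / 100) := by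
          rw [hF]
          unfold FF
          rw [← Finset.sum_sub_distrib]
          refine Finset.sum_le_sum fun v _ => ?_
          rw [← mul_sub]
          by_cases hv : I R v
          · refine mul_le_mul_of_nonneg_left ?_ (by positivity)
            have h7 := (le_abs_self _).trans
              (Gp_lip (sg a v * X v g) (sg a v * z (M • g) v))
            rw [← mul_sub, abs_mul, sg_abs, one_mul] at h7
            refine h7.trans ?_
            have h8 := h3' v hv
            have h9 : e0 ≤ 1 / 1000 := he01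
            linarith
          · have : ind A R v = 0 := ind_zero A R v (hAI R v hv)
            rw [this]; simp
        rw [← Finset.sum_mul] at h6
        have h10 : ∑ v, ind A R v ^ 2 * Real.sqrt (rho a v) ≤ s := hPhi R
        linarith
      have h11 : |eta b (fun v => X v g) R| ≤ |eta b (z (M • g)) R| + 1 := by
        have h12 : |eta b (fun v => X v g) R - eta b (z (M • g)) R| ≤ 1 := by
          unfold eta
          rw [← Finset.sum_sub_distrib]
          have h13 : |∑ v, (b R v * X v g - b R v * z (M • g) v)| ≤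
              ∑ v, (if I R v then e0 else 0) := by
            refine (Finset.abs_sum_le_sum_abs _ _).trans (Finset.sum_le_sum fun v _ => ?_)
            split_ifs with hv
            · rw [← mul_sub, abs_mul]
              have hb1 : |b R v| ≤ 1 := sc_abs ha hA3 R v
              calc |b R v| * |X v g - z (M • g) v| ≤ 1 * e0 :=
                    mul_le_mul hb1 (h3' v hv) (abs_nonneg _) (by norm_num)
                _ = e0 := one_mul _
            · have : b R v = 0 := by
                by_contra h0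
                exact hv (hbI R v h0)
              rw [this]; simp
          refine h13.trans ?_
          have h14 : ∑ v, (if I R v then e0 else 0) = (S.card : ℝ) * e0 := by
            rw [hS, Finset.sum_ite, Finset.sum_const_zero, add_zero, Finset.sum_const,
              nsmul_eq_mul]
          rw [h14]
          calc (S.card : ℝ) * e0 ≤ N1 * e0 :=
                mul_le_mul_of_nonneg_right (hcardR1 R) he0p.le
            _ = 1 / 1000 := by
                rw [he0]
                field_simp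
            _ ≤ 1 := by norm_num
        have h18 := abs_sub_abs_le_abs_sub (eta b (fun v => X v g) R) (eta b (z (M • g)) R)
        linarith
      rcases hg with hg | hg
      · have := hEF R
        have hg' : 77/100 * s < FF (ind A) a R (fun v => X v g) := hg
        linarith
      · have hg' : K + 3 < |eta b (fun v => X v g) R| := hg
        linarith
    calc (gam V).real (E R) ≤ (gam V).real (({g | (∫ y, F R y ∂(gam V)) + s / 100 ≤ F R g} ∪
        {g | K + 2 ≤ |eta b (z (M • g)) R|}) ∪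
        ⋃ v ∈ S, {g | ε + 2 * qb < |X v g - z (M • g) v|}) := measureReal_mono hsub
      _ ≤ (gam V).real ({g | (∫ y, F R y ∂(gam V)) + s / 100 ≤ F R g} ∪
        {g | K + 2 ≤ |eta b (z (M • g)) R|}) +
        (gam V).real (⋃ v ∈ S, {g | ε + 2 * qb < |X v g - z (M • g) v|}) :=
          measureReal_union_le _ _
      _ ≤ (Real.exp (-(c * s)) + 2 * Real.exp (-((w0⁻¹) ^ 4 / M ^ 2))) + D * δ1 := by
          refine add_le_add ?_ ?_
          · refine (measureReal_union_le _ _).trans ?_
            exact add_le_add (hFP R) (hfar R)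
          · refine (measureReal_biUnion_finset_le _ _).trans ?_
            calc ∑ v ∈ S, (gam V).real {g | ε + 2 * qb < |X v g - z (M • g) v|}
                ≤ ∑ v ∈ S, δ1 := Finset.sum_le_sum fun v _ => hloc v
              _ = S.card * δ1 := by rw [Finset.sum_const, nsmul_eq_mul]
              _ ≤ D * δ1 := by
                  refine mul_le_mul_of_nonneg_right ?_ (by positivity)
                  exact_mod_cast hcardR R
  -- local lemma
  have hδ0 : 0 ≤ δ1 := by positivity
  obtain ⟨g, hg⟩ := hLLL V W (fun _ => gaussianReal 0 1) E (fun R => rball I (4 * m) R) hEm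
    hEdep (Real.exp (-(c * s)) + 2 * Real.exp (-((w0⁻¹) ^ 4 / M ^ 2)) + D * δ1)
    ((D ^ 2 + 1) ^ (2 * (4 * m) + 1)) (by positivity) (Nat.one_le_pow _ _ (by positivity))
    hEp (fun R => hDEP V W I D hcardR hcardV (4 * m) R) hfin
  -- the new state
  refine ⟨nw a (fun v => X v g), nw_abs ha _ (fun v => hXb v g), fun R => ?_, fun v hv => ?_,
    fun R => ?_⟩
  · refine (nw_Phi ha _ (fun v => hXb v g) R).trans ?_
    by_contra h1
    refine hg R (Or.inl ?_)
    push Not at h1
    nlinarith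
  · unfold nw rho
    rw [hv]
    ring
  · rw [sc_disc]
    by_contra h1
    refine hg R (Or.inr ?_)
    rw [hK]
    linarith [not_le.1 h1]

end

end Pool.Agent.N421.KD
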