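import Mathlib

set_option autoImplicit false

/-!
# The numerical inequalities for one phase
-/

namespace Pool.Agent.N421.KD

theorem log_le (y : ℝ) (hy : 10 ^ 8 ≤ y) : Real.log y ≤ y / 1000 := by
  have hy0 : 0 < y := by linarith
  have h1 : Real.log y = 2 * Real.log (Real.sqrt y) := by
    rw [Real.log_sqrt hy0.le]; ring
  have hs : 10 ^ 4 ≤ Real.sqrt y := by
    refine Real.le_sqrt_of_sq_le ?_
    norm_num
    linarith
  have h2 : Real.log (Real.sqrt y) ≤ Real.sqrt y := by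
    have := Real.log_le_sub_one_of_pos (show 0 < Real.sqrt y by linarith)
    linarith
  have h3 : Real.sqrt y * Real.sqrt y = y := Real.mul_self_sqrt hy0.le
  nlinarith

theorem pow_exp (y : ℝ) (hy : 10 ^ 8 ≤ y) (n : ℕ) (hn : n ≤ 1000) : y ^ n ≤ Real.exp y := by
  have hy0 : 0 < y := by linarith
  have h1 := log_le y hy
  have h2 : y ^ n = Real.exp (n * Real.log y) := by
    rw [← Real.log_pow, Real.exp_log (by positivity)]
  rw [h2]
  apply Real.exp_le_exp.2
  have h3 : (n : ℝ) ≤ 1000 := by exact_mod_cast hn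
  have h4 : 0 ≤ Real.log y := Real.log_nonneg (by linarith)
  nlinarith

/-- the inequalities -/
theorem param (y : ℝ) (hy : 10 ^ 8 ≤ y) (s : ℝ) (hs : y ^ 60 ≤ s) (D : ℕ) (hD : (D : ℝ) ≤ y ^ 400)
    (m : ℕ) (hm : m = ⌈y ^ 56⌉₊) :
    1 ≤ m ∧ (y ^ 17)⁻¹ ≤ 1 / 1000 ∧ 2 * (1 + 2 * (400:ℝ)) ≤ y ^ 2 ∧ (y ^ 17)⁻¹ ≤ (y ^ 2)⁻¹ ∧
    (y ^ 55)⁻¹ ≤ 1 ∧ 8 * ((y ^ 55)⁻¹) ^ 2 * (y ^ 2) ^ 4 * y ^ 100 ≤ 1 ∧
    (2 * (D : ℝ) ^ 2) ^ (4 * m) * Real.exp (-(m : ℝ) * (y ^ 2) ^ 2 / (4 * 400 ^ 2))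
      ≤ (Real.exp (-(y ^ 59))) ^ 2 ∧
    (y ^ 101)⁻¹ + 2 * Real.exp (-(y ^ 59)) ≤ 1 / (1000 * y ^ 100) ∧
    4 * (Real.exp (-(1 / 10 ^ 12 * s)) + 2 * Real.exp (-((((y ^ 17)⁻¹)⁻¹) ^ 4 / 400 ^ 2))
      + D * (2 * Real.exp (-(y ^ 59)) + 2 * Real.exp (-(((y ^ 101)⁻¹) ^ 2 *
        Real.exp (4 * (y ^ 55)⁻¹ * m) / (16 * 400 ^ 2)))))
      * (((D ^ 2 + 1) ^ (2 * (4 * m) + 1) : ℕ) : ℝ) ≤ 1 := by
  have hy0 : 0 < y := by linarith
  have hy1 : 1 ≤ y := by linarith
  have hp : ∀ n : ℕ, 0 < y ^ n := fun n => pow_pos hy0 n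
  have hp1 : ∀ n : ℕ, 1 ≤ y ^ n := fun n => one_le_pow₀ hy1
  have hstep : ∀ n : ℕ, 10 ^ 8 * y ^ n ≤ y ^ (n + 1) := by
    intro n
    calc 10 ^ 8 * y ^ n ≤ y * y ^ n := mul_le_mul_of_nonneg_right hy (hp n).le
      _ = y ^ (n + 1) := by ring
  have hyp : ∀ n : ℕ, y ≤ y ^ (n + 1) := fun n => le_self_pow₀ hy1 (by omega)
  have hm1 : y ^ 56 ≤ (m : ℝ) := by rw [hm]; exact Nat.le_ceil _
  have hm2 : (m : ℝ) ≤ 2 * y ^ 56 := by
    rw [hm]
    have := (Nat.ceil_lt_add_one (hp 56).le).le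
    have := hp1 56
    linarith
  have hm0 : (1 : ℝ) ≤ m := (hp1 56).trans hm1
  -- D
  have hexp1 : Real.exp 1 ≤ 3 := by
    have := Real.exp_one_lt_d9
    linarith
  have hDe : (D : ℝ) ≤ Real.exp y := hD.trans (pow_exp y hy 400 (by norm_num))
  have hD2 : 2 * (D : ℝ) ^ 2 ≤ Real.exp (1 + y) := by
    have h1 : (D : ℝ) ^ 2 ≤ y ^ 800 := by
      calc (D : ℝ) ^ 2 ≤ (y ^ 400) ^ 2 := pow_le_pow_left₀ (Nat.cast_nonneg _) hD 2
        _ = y ^ 800 := by rw [← pow_mul]
    have h2 : y ^ 800 ≤ Real.exp y := pow_exp y hy 800 (by norm_num)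
    rw [Real.exp_add]
    have h3 : (2 : ℝ) ≤ Real.exp 1 := by
      have := Real.add_one_le_exp (1 : ℝ)
      linarith
    have h4 : 0 ≤ (D : ℝ) ^ 2 := by positivity
    calc 2 * (D : ℝ) ^ 2 ≤ Real.exp 1 * (D : ℝ) ^ 2 := mul_le_mul_of_nonneg_right h3 h4
      _ ≤ Real.exp 1 * Real.exp y := mul_le_mul_of_nonneg_left (h1.trans h2) (Real.exp_pos _).le
  have hD3 : (D : ℝ) ^ 2 + 1 ≤ Real.exp (1 + y) := by
    rcases Nat.eq_zero_or_pos D with h | h
    · rw [h]
      norm_num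
      linarith
    · have h1 : (1 : ℝ) ≤ (D : ℝ) ^ 2 := by
        have : (1 : ℝ) ≤ D := by exact_mod_cast h
        exact one_le_pow₀ this
      linarith
  refine ⟨?_, ?_, ?_, ?_, ?_, ?_, ?_, ?_, ?_⟩
  · exact_mod_cast hm0
  · rw [one_div]
    refine inv_anti₀ (by norm_num) ?_
    have := hyp 16
    norm_num at this
    linarith
  · have := hyp 1
    norm_num at this ⊢
    linarith
  · exact inv_anti₀ (hp 2) (pow_le_pow_right₀ hy1 (by norm_num))
  · exact inv_le_one_of_one_le₀ (hp1 55)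
  · have h1 : 8 * ((y ^ 55)⁻¹) ^ 2 * (y ^ 2) ^ 4 * y ^ 100 = 8 / y ^ 2 := by
      field_simp
    rw [h1, div_le_one (hp 2)]
    have := hyp 1
    norm_num at this ⊢
    linarith
  · -- path
    have h1 : (2 * (D : ℝ) ^ 2) ^ (4 * m) ≤ Real.exp ((1 + y) * (4 * m)) := by
      calc (2 * (D : ℝ) ^ 2) ^ (4 * m) ≤ (Real.exp (1 + y)) ^ (4 * m) :=
            pow_le_pow_left₀ (by positivity) hD2 _
        _ = Real.exp ((1 + y) * (4 * m)) := by
            rw [← Real.exp_nat_mul]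
            congr 1
            push_cast
            ring
    have h2 : (Real.exp (-(y ^ 59))) ^ 2 = Real.exp (-(2 * y ^ 59)) := by
      rw [← Real.exp_nat_mul]
      congr 1
      push_cast
      ring
    rw [h2]
    refine (mul_le_mul_of_nonneg_right h1 (Real.exp_pos _).le).trans ?_
    rw [← Real.exp_add]
    apply Real.exp_le_exp.2
    have h3 : 2 * y ^ 3 ≤ y ^ 4 / (4 * 400 ^ 2) - 4 * (1 + y) := by
      have e1 := hstep 3
      have e2 := hyp 2
      norm_num at e1 e2 ⊢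
      linarith
    have h4 : 2 * y ^ 59 ≤ m * (y ^ 4 / (4 * 400 ^ 2) - 4 * (1 + y)) := by
      calc 2 * y ^ 59 = y ^ 56 * (2 * y ^ 3) := by ring
        _ ≤ m * (y ^ 4 / (4 * 400 ^ 2) - 4 * (1 + y)) :=
            mul_le_mul hm1 h3 (by positivity) (by linarith)
    have h5 : (y ^ 2) ^ 2 = y ^ 4 := by ring
    rw [h5]
    have h6 : -(m : ℝ) * y ^ 4 / (4 * 400 ^ 2) = - (m * (y ^ 4 / (4 * 400 ^ 2))) := by ring
    rw [h6]
    linarith
  · -- epsilon
    have h1 : Real.exp (-(y ^ 59)) ≤ (y ^ 101)⁻¹ := by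
      rw [Real.exp_neg]
      refine inv_anti₀ (hp 101) ?_
      refine (pow_exp y hy 101 (by norm_num)).trans (Real.exp_le_exp.2 ?_)
      exact hyp 58
    have h2 : 3 * (y ^ 101)⁻¹ ≤ 1 / (1000 * y ^ 100) := by
      rw [le_div_iff₀ (by positivity)]
      have e1 : 3 * (y ^ 101)⁻¹ * (1000 * y ^ 100) = 3000 / y := by
        field_simp
        ring
      rw [e1, div_le_one hy0]
      linarith
    linarith
  · -- the last one
    set P : ℝ := Real.exp (-(2 * y ^ 58)) with hP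
    have hP0 : 0 < P := Real.exp_pos _
    have t1 : Real.exp (-(1 / 10 ^ 12 * s)) ≤ P := by
      apply Real.exp_le_exp.2
      have e1 := hstep 58
      have e2 := hstep 59
      have e3 := hp 58
      norm_num at e1 e2 ⊢
      linarith
    have t2 : Real.exp (-((((y ^ 17)⁻¹)⁻¹) ^ 4 / 400 ^ 2)) ≤ P := by
      apply Real.exp_le_exp.2
      rw [inv_inv, ← pow_mul]
      have e1 := hstep 58
      have e2 : y ^ 59 ≤ y ^ (17 * 4) := pow_le_pow_right₀ hy1 (by norm_num)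
      have e3 := hp 58
      norm_num at e1 e2 ⊢
      linarith
    have t3 : D * Real.exp (-(y ^ 59)) ≤ P := by
      calc D * Real.exp (-(y ^ 59)) ≤ Real.exp y * Real.exp (-(y ^ 59)) :=
            mul_le_mul_of_nonneg_right hDe (Real.exp_pos _).le
        _ = Real.exp (y + -(y ^ 59)) := by rw [← Real.exp_add]
        _ ≤ P := by
            apply Real.exp_le_exp.2
            have e1 := hstep 58
            have e2 := hyp 57
            have e3 := hp 58
            norm_num at e1 e2 ⊢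
            linarith
    have t4 : D * Real.exp (-(((y ^ 101)⁻¹) ^ 2 *
        Real.exp (4 * (y ^ 55)⁻¹ * m) / (16 * 400 ^ 2))) ≤ P := by
      have e0 : 4 * y ≤ 4 * (y ^ 55)⁻¹ * m := by
        have e1 : (y ^ 55)⁻¹ * y ^ 56 = y := by
          field_simp
        have e2 : (y ^ 55)⁻¹ * y ^ 56 ≤ (y ^ 55)⁻¹ * m :=
          mul_le_mul_of_nonneg_left hm1 (by positivity)
        linarith
      have e3 : y ^ 400 ≤ Real.exp (4 * (y ^ 55)⁻¹ * m) :=
        (pow_exp y hy 400 (by norm_num)).trans (Real.exp_le_exp.2 (by linarith))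
      have e4 : 3 * y ^ 58 ≤ ((y ^ 101)⁻¹) ^ 2 *
          Real.exp (4 * (y ^ 55)⁻¹ * m) / (16 * 400 ^ 2) := by
        rw [le_div_iff₀ (by norm_num)]
        calc 3 * y ^ 58 * (16 * 400 ^ 2) ≤ y ^ 59 := by
              have e1 := hstep 58
              have e5 := hp 58
              norm_num at e1 ⊢
              linarith
          _ ≤ y ^ 198 := pow_le_pow_right₀ hy1 (by norm_num)
          _ = ((y ^ 101)⁻¹) ^ 2 * y ^ 400 := by
              rw [inv_pow, ← pow_mul]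
              have : y ^ 400 = y ^ 202 * y ^ 198 := by rw [← pow_add]
              rw [this]
              field_simp
          _ ≤ _ := mul_le_mul_of_nonneg_left e3 (by positivity)
      calc D * Real.exp (-(((y ^ 101)⁻¹) ^ 2 *
            Real.exp (4 * (y ^ 55)⁻¹ * m) / (16 * 400 ^ 2)))
          ≤ Real.exp y * Real.exp (-(3 * y ^ 58)) := by
            refine mul_le_mul hDe (Real.exp_le_exp.2 (by linarith)) (Real.exp_pos _).le
              (Real.exp_pos _).le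
        _ = Real.exp (y + -(3 * y ^ 58)) := by rw [← Real.exp_add]
        _ ≤ P := by
            apply Real.exp_le_exp.2
            have e2 := hyp 57
            norm_num at e2 ⊢
            linarith
    have hN : (((D ^ 2 + 1) ^ (2 * (4 * m) + 1) : ℕ) : ℝ) ≤ Real.exp (y ^ 58) := by
      push_cast
      calc ((D : ℝ) ^ 2 + 1) ^ (2 * (4 * m) + 1) ≤ (Real.exp (1 + y)) ^ (2 * (4 * m) + 1) :=
            pow_le_pow_left₀ (by positivity) hD3 _
        _ = Real.exp ((1 + y) * (8 * m + 1)) := by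
            rw [← Real.exp_nat_mul]
            congr 1
            push_cast
            ring
        _ ≤ Real.exp (y ^ 58) := by
            apply Real.exp_le_exp.2
            have e1 : (1 + y) * (8 * m + 1) ≤ (2 * y) * (17 * y ^ 56) := by
              refine mul_le_mul (by linarith) ?_ (by positivity) (by positivity)
              have := hp1 56
              linarith
            have e2 : (2 * y) * (17 * y ^ 56) = 34 * y ^ 57 := by ring
            have e3 := hstep 57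
            norm_num at e3 ⊢
            linarith [hp 57]
    have hsum : 4 * (Real.exp (-(1 / 10 ^ 12 * s)) +
        2 * Real.exp (-((((y ^ 17)⁻¹)⁻¹) ^ 4 / 400 ^ 2))
      + D * (2 * Real.exp (-(y ^ 59)) + 2 * Real.exp (-(((y ^ 101)⁻¹) ^ 2 *
        Real.exp (4 * (y ^ 55)⁻¹ * m) / (16 * 400 ^ 2))))) ≤ 28 * P := by
      have : D * (2 * Real.exp (-(y ^ 59)) + 2 * Real.exp (-(((y ^ 101)⁻¹) ^ 2 *
        Real.exp (4 * (y ^ 55)⁻¹ * m) / (16 * 400 ^ 2)))) =
        2 * (D * Real.exp (-(y ^ 59))) + 2 * (D * Real.exp (-(((y ^ 101)⁻¹) ^ 2 *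
        Real.exp (4 * (y ^ 55)⁻¹ * m) / (16 * 400 ^ 2)))) := by ring
      rw [this]
      linarith
    refine (mul_le_mul hsum hN (by positivity) (by positivity)).trans ?_
    rw [hP, mul_assoc, ← Real.exp_add]
    have e1 : -(2 * y ^ 58) + y ^ 58 = -(y ^ 58) := by ring
    rw [e1, Real.exp_neg, ← div_eq_mul_inv, div_le_one (Real.exp_pos _)]
    have e2 := Real.add_one_le_exp (y ^ 58)
    have e3 := hyp 57
    norm_num at e2 e3 ⊢
    linarith

end Pool.Agent.N421.KD
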