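import Pool.Agent.N421.KD.Core
import Pool.Agent.N421.KD.Param
import Pool.Agent.H320R2.LD.ROUND

set_option autoImplicit false

/-!
# Rounding of the nearly frozen elements
-/

open MeasureTheory ProbabilityTheory

namespace Pool.Agent.N421.KD

open Pool.Agent.H320R2.LD Pool.Agent.H320R2.LD.PHASE Pool.Agent.R959.LD2

noncomputable section

theorem pow_le_exp7 (y : ℝ) (hy : 10 ^ 8 ≤ y) :
    4 * (3 * Real.exp (1 - y ^ 7)) * y ^ 500 ≤ 1 := by
  have hy0 : 0 < y := by linarith
  have hy1 : 1 ≤ y := by linarith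
  have h1 := pow_exp y hy 500 (by norm_num)
  have h2 : y ^ 2 ≤ y ^ 7 := pow_le_pow_right₀ hy1 (by norm_num)
  have h3 : (12 : ℝ) ≤ Real.exp 12 := by
    have := Real.add_one_le_exp (12 : ℝ)
    linarith
  calc 4 * (3 * Real.exp (1 - y ^ 7)) * y ^ 500
      ≤ Real.exp 12 * Real.exp (1 - y ^ 7) * Real.exp y := by
        have h4 : 4 * (3 * Real.exp (1 - y ^ 7)) = 12 * Real.exp (1 - y ^ 7) := by ring
        rw [h4]
        gcongr
    _ = Real.exp (12 + (1 - y ^ 7) + y) := by rw [← Real.exp_add, ← Real.exp_add]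
    _ ≤ Real.exp 0 := by
        apply Real.exp_le_exp.2
        nlinarith
    _ = 1 := Real.exp_zero

/-- rounding -/
theorem sparsify (hLLL : St_LLL) (y : ℝ) (hy : 10 ^ 8 ≤ y) (V W : Type) [Fintype V] [Fintype W]
    (A : W → V → ℝ) (a : V → ℝ)
    (hA : ∀ v, ∑ R, A R v ^ 2 ≤ 1) (hrow : ∀ R, ((supp (A R)).card : ℝ) ≤ y ^ 100)
    (hcols : ∀ v, ((supp (fun R => A R v)).card : ℝ) ≤ y ^ 400)
    (ha : ∀ v, |a v| ≤ 1) (hPhi : ∀ R, Phi (ind A) a R ≤ y ^ 61) :
    ∃ a' : V → ℝ, (∀ v, |a' v| ≤ 1) ∧ (∀ v, |a v| = 1 → a' v = a v) ∧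
      (∀ R, |∑ v, A R v * (a' v - a v)| ≤ 1) ∧
      ∀ R, ((supp (fun v => A R v * (1 - |a' v|))).card : ℝ) ≤ y ^ 87 := by
  classical
  have hy0 : 0 < y := by linarith
  have hy1 : 1 ≤ y := by linarith
  set τ : ℝ := (y ^ 50)⁻¹ with hτ
  have hτ0 : 0 < τ := by positivity
  have hτ1 : τ ≤ 1 := inv_le_one_of_one_le₀ (one_le_pow₀ hy1)
  have hr0 : ∀ v, 0 ≤ rho a v := rho_nonneg ha
  have hAabs : ∀ R v, |A R v| ≤ 1 := by
    intro R v
    have h1 : A R v ^ 2 ≤ 1 := by
      refine le_trans ?_ (hA v)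
      exact Finset.single_le_sum (f := fun R => A R v ^ 2)
        (fun u _ => sq_nonneg _) (Finset.mem_univ R)
    exact (sq_le_one_iff_abs_le_one _).1 h1
  obtain ⟨sm, hsm⟩ : ∃ sm : V → Prop, ∀ v, sm v ↔ (0 < rho a v ∧ rho a v < τ) :=
    ⟨_, fun _ => Iff.rfl⟩
  set p : V → ℝ := fun v => if sm v then rho a v / τ else 0 with hp
  have hp0 : ∀ v, 0 ≤ p v := by
    intro v
    simp only [hp]
    split_ifs
    · exact div_nonneg (hr0 v) hτ0.le
    · exact le_rfl
  have hp1 : ∀ v, p v ≤ 1 := by
    intro v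
    simp only [hp]
    split_ifs with h
    · rw [div_le_one hτ0]
      exact ((hsm v).1 h).2.le
    · norm_num
  set al : V → ℝ := fun v => 1 - 2 * p v with hal
  have hal1 : ∀ v, |al v| ≤ 1 := by
    intro v
    rw [abs_le]
    simp only [hal]
    constructor <;> linarith [hp0 v, hp1 v]
  have hal2 : ∀ v, 1 - |al v| ≤ 2 * p v := by
    intro v
    have := le_abs_self (al v)
    simp only [hal] at this ⊢
    linarith
  have : ∀ v, IsProbabilityMeasure (ROUND.nu (al v)) := fun v => ROUND.nu_prob _ (hal1 v)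
  -- sums of p
  have hpsum : ∀ R, ∑ v ∈ supp (A R), p v ≤ y ^ 86 := by
    intro R
    have h1 : ∀ v ∈ supp (A R), p v ≤ y ^ 25 * (ind A R v ^ 2 * Real.sqrt (1 - |a v|)) := by
      intro v hv
      rw [mem_supp] at hv
      have h2 : ind A R v = 1 := by unfold ind; rw [if_neg hv]
      rw [h2, one_pow, one_mul]
      simp only [hp]
      split_ifs with h
      · have h3 := ((hsm v).1 h).2
        have h4 : Real.sqrt (rho a v) * Real.sqrt (rho a v) = rho a v :=
          Real.mul_self_sqrt (hr0 v)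
        have h5 : Real.sqrt (rho a v) ≤ (y ^ 25)⁻¹ := by
          rw [Real.sqrt_le_left (by positivity), inv_pow, ← pow_mul]
          exact h3.le
        have h6 : 0 ≤ Real.sqrt (rho a v) := Real.sqrt_nonneg _
        rw [div_le_iff₀ hτ0]
        have h7 : y ^ 25 * Real.sqrt (1 - |a v|) * τ = Real.sqrt (rho a v) * (y ^ 25)⁻¹ := by
          rw [hτ]
          have : y ^ 50 = y ^ 25 * y ^ 25 := by rw [← pow_add]
          rw [this]
          unfold rho
          field_simp
        rw [h7]
        calc rho a v = Real.sqrt (rho a v) * Real.sqrt (rho a v) := h4.symm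
          _ ≤ Real.sqrt (rho a v) * (y ^ 25)⁻¹ := mul_le_mul_of_nonneg_left h5 h6
      · positivity
    calc ∑ v ∈ supp (A R), p v
        ≤ ∑ v ∈ supp (A R), y ^ 25 * (ind A R v ^ 2 * Real.sqrt (1 - |a v|)) :=
          Finset.sum_le_sum h1
      _ ≤ ∑ v, y ^ 25 * (ind A R v ^ 2 * Real.sqrt (1 - |a v|)) :=
          Finset.sum_le_sum_of_subset_of_nonneg (Finset.subset_univ _)
            (fun v _ _ => by positivity)
      _ = y ^ 25 * Phi (ind A) a R := by
          rw [← Finset.mul_sum]; rfl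
      _ ≤ y ^ 25 * y ^ 61 := mul_le_mul_of_nonneg_left (hPhi R) (by positivity)
      _ = y ^ 86 := by rw [← pow_add]
  -- coefficients
  set cc : W → V → ℝ := fun R v => if sm v then A R v * PHASE.sg a v * (τ / 2) else 0 with hcc
  set dd : W → V → ℝ := fun R v => if sm v ∧ A R v ≠ 0 then -(1/2) else 0 with hdd
  have hsgabs : ∀ v, |PHASE.sg a v| = 1 := PHASE.sg_abs a
  have hccabs : ∀ R v, |cc R v| ≤ τ / 2 := by
    intro R v
    simp only [hcc]
    split_ifs
    · rw [abs_mul, abs_mul, hsgabs, mul_one, abs_of_pos (by positivity : (0:ℝ) < τ / 2)]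
      exact mul_le_of_le_one_left (by positivity) (hAabs R v)
    · rw [abs_zero]; positivity
  have hcc0 : ∀ R v, v ∉ supp (A R) → cc R v = 0 := by
    intro R v hv
    have : A R v = 0 := by
      by_contra h0
      exact hv ((mem_supp _ _).mpr h0)
    simp only [hcc, this]
    simp
  have hdd0 : ∀ R v, v ∉ supp (A R) → dd R v = 0 := by
    intro R v hv
    have : A R v = 0 := by
      by_contra h0
      exact hv ((mem_supp _ _).mpr h0)
    simp only [hdd, this]
    simp
  have hsumcc : ∀ R, ∑ v, 2 * (y ^ 7 * cc R v) ^ 2 * (1 - |al v|) ≤ 1 := by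
    intro R
    have h1 : ∑ v, 2 * (y ^ 7 * cc R v) ^ 2 * (1 - |al v|) =
        ∑ v ∈ supp (A R), 2 * (y ^ 7 * cc R v) ^ 2 * (1 - |al v|) := by
      symm
      refine Finset.sum_subset (Finset.subset_univ _) fun v _ hv => ?_
      rw [hcc0 R v hv]; simp
    rw [h1]
    have h2 : ∀ v ∈ supp (A R), 2 * (y ^ 7 * cc R v) ^ 2 * (1 - |al v|) ≤
        (y ^ 86)⁻¹ * p v := by
      intro v _
      have h3 : (cc R v) ^ 2 ≤ (τ / 2) ^ 2 := by
        rw [← sq_abs]
        exact pow_le_pow_left₀ (abs_nonneg _) (hccabs R v) 2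
      have h4 := hal2 v
      have h5 : 0 ≤ 1 - |al v| := by linarith [hal1 v]
      calc 2 * (y ^ 7 * cc R v) ^ 2 * (1 - |al v|)
          = 2 * y ^ 14 * (cc R v) ^ 2 * (1 - |al v|) := by ring
        _ ≤ 2 * y ^ 14 * (τ / 2) ^ 2 * (2 * p v) := by gcongr
        _ = (y ^ 86)⁻¹ * p v := by
            rw [hτ]
            field_simp
    refine (Finset.sum_le_sum h2).trans ?_
    rw [← Finset.mul_sum]
    calc (y ^ 86)⁻¹ * ∑ v ∈ supp (A R), p v ≤ (y ^ 86)⁻¹ * y ^ 86 :=
          mul_le_mul_of_nonneg_left (hpsum R) (by positivity)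
      _ = 1 := inv_mul_cancel₀ (by positivity)
  have hsumdd : ∀ R, ∑ v, 2 * (1 * dd R v) ^ 2 * (1 - |al v|) ≤ y ^ 86 := by
    intro R
    have h1 : ∑ v, 2 * (1 * dd R v) ^ 2 * (1 - |al v|) =
        ∑ v ∈ supp (A R), 2 * (1 * dd R v) ^ 2 * (1 - |al v|) := by
      symm
      refine Finset.sum_subset (Finset.subset_univ _) fun v _ hv => ?_
      rw [hdd0 R v hv]; simp
    rw [h1]
    refine (Finset.sum_le_sum fun v _ => ?_).trans (hpsum R)
    have h4 := hal2 v
    have h5 : 0 ≤ 1 - |al v| := by linarith [hal1 v]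
    have h6 : (1 * dd R v) ^ 2 ≤ 1 / 4 := by
      simp only [hdd]
      split_ifs <;> norm_num
    calc 2 * (1 * dd R v) ^ 2 * (1 - |al v|) ≤ 2 * (1 / 4) * (2 * p v) := by gcongr
      _ = p v := by ring
  -- events
  set μ : Measure (V → ℝ) := Measure.pi fun v => ROUND.nu (al v) with hμ
  have : IsProbabilityMeasure μ := by rw [hμ]; infer_instance
  set E1 : W → Set (V → ℝ) := fun R => {x | 1 < ∑ v, cc R v * (ROUND.sg (x v) - al v)} with hE1
  set E2 : W → Set (V → ℝ) := fun R => {x | 1 < ∑ v, (-cc R v) * (ROUND.sg (x v) - al v)} with hE2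
  set E3 : W → Set (V → ℝ) := fun R => {x | 2 * y ^ 86 < ∑ v, dd R v * (ROUND.sg (x v) - al v)}
    with hE3
  set E : W → Set (V → ℝ) := fun R => (E1 R ∪ E2 R) ∪ E3 R with hE
  have hmeas : ∀ (c : V → ℝ) (θ : ℝ),
      MeasurableSet {x : V → ℝ | θ < ∑ v, c v * (ROUND.sg (x v) - al v)} := fun c θ =>
    measurableSet_lt measurable_const (ROUND.meas_sum al c)
  have hdepc : ∀ (R : W) (c : V → ℝ), (∀ v, v ∉ supp (A R) → c v = 0) → ∀ x x' : V → ℝ,
      (∀ v ∈ supp (A R), x v = x' v) →
      ∑ v, c v * (ROUND.sg (x v) - al v) = ∑ v, c v * (ROUND.sg (x' v) - al v) := by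
    intro R c hc x x' hx
    refine Finset.sum_congr rfl fun v _ => ?_
    by_cases hv : v ∈ supp (A R)
    · rw [hx v hv]
    · rw [hc v hv]; ring
  have htail : ∀ R, μ.real (E R) ≤ 3 * Real.exp (1 - y ^ 7) := by
    intro R
    have hb : ∀ c : V → ℝ, (∀ v, |c v| ≤ τ / 2) →
        ∑ v, 2 * (y ^ 7 * c v) ^ 2 * (1 - |al v|) ≤ 1 →
        μ.real {x | 1 < ∑ v, c v * (ROUND.sg (x v) - al v)} ≤ Real.exp (1 - y ^ 7) := by
      intro c hc hs
      refine (ROUND.tail al c hal1 (y ^ 7) 1 (by positivity) ?_).trans ?_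
      · intro v
        rw [abs_mul, abs_of_pos (by positivity : (0:ℝ) < y ^ 7)]
        calc y ^ 7 * |c v| ≤ y ^ 7 * (τ / 2) := mul_le_mul_of_nonneg_left (hc v) (by positivity)
          _ ≤ 1 / 2 := by
              have : y ^ 7 * τ ≤ 1 := by
                rw [hτ, ← div_eq_mul_inv, div_le_one (by positivity)]
                exact pow_le_pow_right₀ hy1 (by norm_num)
              linarith
      · apply Real.exp_le_exp.2
        linarith
    have t1 : μ.real (E1 R) ≤ Real.exp (1 - y ^ 7) := hb (cc R) (hccabs R) (hsumcc R)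
    have t2 : μ.real (E2 R) ≤ Real.exp (1 - y ^ 7) := by
      refine hb (fun v => -cc R v) (fun v => by rw [abs_neg]; exact hccabs R v) ?_
      refine le_trans (le_of_eq ?_) (hsumcc R)
      refine Finset.sum_congr rfl fun v _ => ?_
      ring
    have t3 : μ.real (E3 R) ≤ Real.exp (1 - y ^ 7) := by
      refine (ROUND.tail al (dd R) hal1 1 (2 * y ^ 86) one_pos ?_).trans ?_
      · intro v
        rw [one_mul]
        simp only [hdd]
        split_ifs
        · rw [abs_neg]; norm_num
        · norm_num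
      · apply Real.exp_le_exp.2
        have h1 := hsumdd R
        have h2 : y ^ 7 ≤ y ^ 86 := pow_le_pow_right₀ hy1 (by norm_num)
        linarith
    calc μ.real (E R) ≤ μ.real (E1 R ∪ E2 R) + μ.real (E3 R) := measureReal_union_le _ _
      _ ≤ (μ.real (E1 R) + μ.real (E2 R)) + μ.real (E3 R) := by
          have := measureReal_union_le (μ := μ) (E1 R) (E2 R)
          linarith
      _ ≤ _ := by linarith
  -- local lemma
  obtain ⟨x, hx⟩ := hLLL V W (fun v => ROUND.nu (al v)) E (fun R => supp (A R))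
    (fun R => ((hmeas _ _).union (hmeas _ _)).union (hmeas _ _))
    (by
      intro R x x' hxx hxE
      have h1 := hdepc R (cc R) (hcc0 R) x x' hxx
      have h2 := hdepc R (fun v => -cc R v) (fun v hv => by rw [hcc0 R v hv]; ring) x x' hxx
      have h3 := hdepc R (dd R) (hdd0 R) x x' hxx
      rcases hxE with (h | h) | h
      · left; left
        show 1 < ∑ v, cc R v * (ROUND.sg (x' v) - al v)
        rw [← h1]; exact h
      · left; right
        show 1 < ∑ v, (-cc R v) * (ROUND.sg (x' v) - al v)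
        rw [← h2]; exact h
      · right
        show 2 * y ^ 86 < ∑ v, dd R v * (ROUND.sg (x' v) - al v)
        rw [← h3]; exact h)
    (3 * Real.exp (1 - y ^ 7)) ⌊y ^ 500⌋₊ (by positivity)
    (Nat.le_floor (by rw [Nat.cast_one]; exact one_le_pow₀ hy1)) htail
    (by
      intro R
      refine Nat.le_floor ?_
      have h1 : (Finset.univ.filter (fun R' => ¬ Disjoint (supp (A R)) (supp (A R')))) ⊆
          (supp (A R)).biUnion (fun v => supp (fun R' => A R' v)) := by
        intro R' hR'
        rw [Finset.mem_filter] at hR'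
        obtain ⟨v, hv, hv'⟩ := Finset.not_disjoint_iff.1 hR'.2
        rw [Finset.mem_biUnion]
        exact ⟨v, hv, (mem_supp _ _).mpr ((mem_supp _ _).1 hv')⟩
      have h2 := Finset.card_le_card h1
      have h3 : (((supp (A R)).biUnion (fun v => supp (fun R' => A R' v))).card : ℝ) ≤
          ∑ v ∈ supp (A R), ((supp (fun R' => A R' v)).card : ℝ) := by
        exact_mod_cast Finset.card_biUnion_le
      calc (((Finset.univ.filter (fun R' => ¬ Disjoint (supp (A R)) (supp (A R')))).card : ℕ) : ℝ)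
          ≤ (((supp (A R)).biUnion (fun v => supp (fun R' => A R' v))).card : ℝ) := by
            exact_mod_cast h2
        _ ≤ ∑ v ∈ supp (A R), ((supp (fun R' => A R' v)).card : ℝ) := h3
        _ ≤ ∑ v ∈ supp (A R), y ^ 400 := Finset.sum_le_sum fun v _ => hcols v
        _ = (supp (A R)).card * y ^ 400 := by rw [Finset.sum_const, nsmul_eq_mul]
        _ ≤ y ^ 100 * y ^ 400 := mul_le_mul_of_nonneg_right (hrow R) (by positivity)
        _ = y ^ 500 := by rw [← pow_add])
    (by
      have h1 : ((⌊y ^ 500⌋₊ : ℕ) : ℝ) ≤ y ^ 500 := Nat.floor_le (by positivity)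
      refine le_trans ?_ (pow_le_exp7 y hy)
      exact mul_le_mul_of_nonneg_left h1 (by positivity))
  -- the new point
  set a' : V → ℝ := fun v => if sm v then PHASE.sg a v * (1 - τ * ((1 - ROUND.sg (x v)) / 2))
    else a v with ha'
  have hsgx : ∀ v, ROUND.sg (x v) = 1 ∨ ROUND.sg (x v) = -1 := fun v => ROUND.sg_pm _
  have hdiff : ∀ R v, A R v * (a' v - a v) = cc R v * (ROUND.sg (x v) - al v) := by
    intro R v
    simp only [ha', hcc, hal, hp]
    split_ifs with h
    · have h1 : a v = PHASE.sg a v * (1 - rho a v) := by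
        have h2 := PHASE.sg_mul a v
        have h3 : PHASE.sg a v * PHASE.sg a v = 1 := by
          rcases PHASE.sg_cases a v with h4 | h4 <;> rw [h4] <;> norm_num
        have h4 : 1 - rho a v = |a v| := by unfold rho; ring
        rw [h4, ← h2, ← mul_assoc, h3, one_mul]
      have h5 : rho a v / τ * τ = rho a v := div_mul_cancel₀ _ hτ0.ne'
      have h6 : A R v * PHASE.sg a v * (τ / 2) * (ROUND.sg (x v) - (1 - 2 * (rho a v / τ)))
          = A R v * PHASE.sg a v * (τ / 2 * (ROUND.sg (x v) - 1) + rho a v / τ * τ) := by ring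
      rw [h6, h5]
      conv_lhs => rw [h1]
      have h7 : PHASE.sg (fun v => a v) v = PHASE.sg a v := rfl
      have h8 : ∀ s r : ℝ, A R v * (s * (1 - τ * ((1 - ROUND.sg (x v)) / 2)) - s * (1 - r))
          = A R v * s * (τ / 2 * (ROUND.sg (x v) - 1) + r) := by intro s r; ring
      rw [← h8]
    · ring
  refine ⟨a', fun v => ?_, fun v hv => ?_, fun R => ?_, fun R => ?_⟩
  · simp only [ha']
    split_ifs with h
    · rw [abs_mul, hsgabs, one_mul, abs_le]
      rcases hsgx v with h1 | h1 <;> rw [h1] <;> constructor <;> linarith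
    · exact ha v
  · have : ¬ sm v := by
      rw [hsm]
      rintro ⟨h1, -⟩
      unfold rho at h1
      rw [hv] at h1
      linarith
    simp only [ha', if_neg this]
  · have h1 : ∑ v, A R v * (a' v - a v) = ∑ v, cc R v * (ROUND.sg (x v) - al v) :=
      Finset.sum_congr rfl fun v _ => hdiff R v
    rw [h1, abs_le]
    constructor
    · by_contra h2
      push Not at h2
      refine hx R (Or.inl (Or.inr ?_))
      show 1 < ∑ v, (-cc R v) * (ROUND.sg (x v) - al v)
      have : ∑ v, (-cc R v) * (ROUND.sg (x v) - al v) =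
          -∑ v, cc R v * (ROUND.sg (x v) - al v) := by
        rw [← Finset.sum_neg_distrib]
        exact Finset.sum_congr rfl fun v _ => by ring
      rw [this]
      linarith
    · by_contra h2
      push Not at h2
      exact hx R (Or.inl (Or.inl h2))
  · -- the count
    have h1 : ∑ v, dd R v * (ROUND.sg (x v) - al v) ≤ 2 * y ^ 86 := by
      by_contra h2
      push Not at h2
      exact hx R (Or.inr h2)
    have h2 : ∀ v ∈ supp (fun v => A R v * (1 - |a' v|)), (1 : ℝ) ≤
        y ^ 25 * (ind A R v ^ 2 * Real.sqrt (1 - |a v|)) +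
          (dd R v * (ROUND.sg (x v) - al v) + (if v ∈ supp (A R) then p v else 0)) := by
      intro v hv
      rw [mem_supp] at hv
      have hA0 : A R v ≠ 0 := left_ne_zero_of_mul hv
      have ha0 : 1 - |a' v| ≠ 0 := right_ne_zero_of_mul hv
      have h3 : ind A R v = 1 := by unfold ind; rw [if_neg hA0]
      have h4 : v ∈ supp (A R) := (mem_supp _ _).mpr hA0
      rw [h3, if_pos h4, one_pow, one_mul]
      by_cases h : sm v
      · have h5 : ROUND.sg (x v) = -1 := by
          rcases hsgx v with h5 | h5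
          · exfalso
            apply ha0
            simp only [ha', if_pos h, h5]
            norm_num
            rw [hsgabs]
            norm_num
          · exact h5
        have h6 : dd R v = -(1/2) := by simp only [hdd]; rw [if_pos ⟨h, hA0⟩]
        rw [h5, h6]
        have h7 : 0 ≤ y ^ 25 * Real.sqrt (1 - |a v|) := by positivity
        simp only [hal]
        linarith
      · have h5 : dd R v = 0 := by
          simp only [hdd]
          rw [if_neg (fun h' => h h'.1)]
        rw [h5]
        have h6 : τ ≤ rho a v := by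
          by_contra h7
          push Not at h7
          apply h
          rw [hsm]
          refine ⟨lt_of_le_of_ne (hr0 v) fun h8 => ?_, h7⟩
          apply ha0
          simp only [ha', if_neg h]
          unfold rho at h8
          exact h8.symm
        have h7 : (y ^ 25)⁻¹ ≤ Real.sqrt (1 - |a v|) := by
          refine Real.le_sqrt_of_sq_le ?_
          rw [inv_pow, ← pow_mul]
          exact h6
        have h8 : 1 ≤ y ^ 25 * Real.sqrt (1 - |a v|) := by
          calc (1:ℝ) = y ^ 25 * (y ^ 25)⁻¹ := (mul_inv_cancel₀ (by positivity)).symm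
            _ ≤ _ := mul_le_mul_of_nonneg_left h7 (by positivity)
        have h9 := hp0 v
        linarith
    have h3 : ∀ v, 0 ≤ y ^ 25 * (ind A R v ^ 2 * Real.sqrt (1 - |a v|)) +
          (dd R v * (ROUND.sg (x v) - al v) + (if v ∈ supp (A R) then p v else 0)) := by
      intro v
      have h4 : 0 ≤ dd R v * (ROUND.sg (x v) - al v) + (if v ∈ supp (A R) then p v else 0) := by
        simp only [hdd]
        split_ifs with h5 h6 h6
        · simp only [hal]
          rcases hsgx v with h7 | h7 <;> rw [h7] <;> linarith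
        · exact absurd ((mem_supp _ _).mpr h5.2) h6
        · have := hp0 v
          linarith
        · norm_num
      positivity
    have h4 : ((supp (fun v => A R v * (1 - |a' v|))).card : ℝ) ≤
        ∑ v, (y ^ 25 * (ind A R v ^ 2 * Real.sqrt (1 - |a v|)) +
          (dd R v * (ROUND.sg (x v) - al v) + (if v ∈ supp (A R) then p v else 0))) := by
      calc ((supp (fun v => A R v * (1 - |a' v|))).card : ℝ)
          = ∑ v ∈ supp (fun v => A R v * (1 - |a' v|)), (1 : ℝ) := by
            rw [Finset.sum_const, nsmul_eq_mul, mul_one]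
        _ ≤ ∑ v ∈ supp (fun v => A R v * (1 - |a' v|)), _ := Finset.sum_le_sum h2
        _ ≤ _ := Finset.sum_le_sum_of_subset_of_nonneg (Finset.subset_univ _)
            (fun v _ _ => h3 v)
    refine h4.trans ?_
    rw [Finset.sum_add_distrib, Finset.sum_add_distrib, ← Finset.mul_sum]
    have h5 : ∑ v, ind A R v ^ 2 * Real.sqrt (1 - |a v|) ≤ y ^ 61 := hPhi R
    have h6 : ∑ v, (if v ∈ supp (A R) then p v else 0) ≤ y ^ 86 := by
      rw [← Finset.sum_filter]
      refine le_trans (le_of_eq ?_) (hpsum R)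
      exact Finset.sum_congr (by ext v; simp) fun v _ => rfl
    have h7 : y ^ 25 * ∑ v, ind A R v ^ 2 * Real.sqrt (1 - |a v|) ≤ y ^ 86 := by
      calc _ ≤ y ^ 25 * y ^ 61 := mul_le_mul_of_nonneg_left h5 (by positivity)
        _ = y ^ 86 := by rw [← pow_add]
    have h8 : 4 * y ^ 86 ≤ y ^ 87 := by
      calc 4 * y ^ 86 ≤ y * y ^ 86 := mul_le_mul_of_nonneg_right (by linarith) (by positivity)
        _ = y ^ 87 := by ring
    linarith

end

end Pool.Agent.N421.KD
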