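import Pool.Agent.N421.KD.Phase
import Pool.Agent.N421.KD.Sparse

set_option autoImplicit false

/-!
# The recursion
-/

open MeasureTheory ProbabilityTheory

namespace Pool.Agent.N421.KD

open Pool.Agent.H320R2.LD Pool.Agent.H320R2.LD.PHASE Pool.Agent.R959.LD2

noncomputable section

/-- one step of the recursion -/
theorem step (c1 : ℝ) (hc1 : c1 ≤ 1) (h : ∀ (y s : ℝ), 10 ^ 8 ≤ y → y ^ 60 ≤ s →
    ∀ (V W : Type) [Fintype V] [Fintype W] (A : W → V → ℝ) (a : V → ℝ),
    (∀ v, ∑ R, A R v ^ 2 ≤ c1) → (∀ R, ((supp (A R)).card : ℝ) ≤ y ^ 100) →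
    (∀ v, ((supp (fun R => A R v)).card : ℝ) ≤ y ^ 400) →
    (∀ v, |a v| ≤ 1) → (∀ R, Phi (ind A) a R ≤ s) →
    ∃ a' : V → ℝ, (∀ v, |a' v| ≤ 1) ∧ (∀ R, Phi (ind A) a' R ≤ 4/5 * s) ∧
      (∀ v, |a v| = 1 → a' v = a v) ∧ ∀ R, |∑ v, A R v * (a' v - a v)| ≤ 4)
    (hLLL : St_LLL) (y : ℝ) (hy : 10 ^ 8 ≤ y) (V W : Type) [Fintype V] [Fintype W]
    (A : W → V → ℝ) (a : V → ℝ) (hcol : ∀ v, ∑ R, A R v ^ 2 ≤ c1) (ha : ∀ v, |a v| ≤ 1)
    (hrow : ∀ R, ((supp (fun v => A R v * (1 - |a v|))).card : ℝ) ≤ y ^ 100) :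
    ∃ (A1 : W → V → ℝ) (a' : V → ℝ), (∀ v, ∑ R, A1 R v ^ 2 ≤ c1) ∧ (∀ v, |a' v| ≤ 1) ∧
      (∀ v, |a v| = 1 → a' v = a v) ∧
      (∀ R, |∑ v, A1 R v * (a' v - a v)| ≤ 4 * (1 + 200 * Real.log y) + 1) ∧
      (∀ R, ((supp (fun v => A1 R v * (1 - |a' v|))).card : ℝ) ≤ y ^ 87) ∧
      ∀ x : V → ℝ, (∀ v, |x v| ≤ 1) → (∀ v, |a v| = 1 → x v = a v) → ∀ R,
        |∑ v, (A R v - A1 R v) * (x v - a v)| ≤ 1 := by
  classical
  have hy0 : 0 < y := by linarith
  have hy1 : 1 ≤ y := by linarith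
  set A1 : W → V → ℝ := fun R v => if |a v| < 1 ∧ (y ^ 200)⁻¹ ≤ |A R v| then A R v else 0 with hA1
  have hsq : ∀ R v, A1 R v ^ 2 ≤ A R v ^ 2 := by
    intro R v
    simp only [hA1]
    split_ifs
    · exact le_rfl
    · rw [zero_pow two_ne_zero]
      exact sq_nonneg _
  have hcol1 : ∀ v, ∑ R, A1 R v ^ 2 ≤ c1 := fun v =>
    (Finset.sum_le_sum fun R _ => hsq R v).trans (hcol v)
  have hrow1 : ∀ R, ((supp (A1 R)).card : ℝ) ≤ y ^ 100 := by
    intro R
    refine le_trans ?_ (hrow R)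
    rw [Nat.cast_le]
    refine Finset.card_le_card fun v hv => ?_
    rw [mem_supp] at hv ⊢
    simp only [hA1] at hv
    split_ifs at hv with h1
    · refine mul_ne_zero hv ?_
      linarith [h1.1]
    · exact absurd rfl hv
  have hcols1 : ∀ v, ((supp (fun R => A1 R v)).card : ℝ) ≤ y ^ 400 := by
    intro v
    have h1 : ((supp (fun R => A1 R v)).card : ℝ) * (y ^ 400)⁻¹ ≤ 1 := by
      calc ((supp (fun R => A1 R v)).card : ℝ) * (y ^ 400)⁻¹
          = ∑ R ∈ supp (fun R => A1 R v), (y ^ 400)⁻¹ := by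
            rw [Finset.sum_const, nsmul_eq_mul]
        _ ≤ ∑ R ∈ supp (fun R => A1 R v), A1 R v ^ 2 := by
            refine Finset.sum_le_sum fun R hR => ?_
            rw [mem_supp] at hR
            simp only [hA1] at hR ⊢
            split_ifs at hR ⊢ with h1
            · calc (y ^ 400)⁻¹ = ((y ^ 200)⁻¹) ^ 2 := by
                    rw [inv_pow, ← pow_mul]
                _ ≤ |A R v| ^ 2 := pow_le_pow_left₀ (by positivity) h1.2 2
                _ = A R v ^ 2 := sq_abs _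
            · exact absurd rfl hR
        _ ≤ ∑ R, A1 R v ^ 2 := Finset.sum_le_sum_of_subset_of_nonneg (Finset.subset_univ _)
            (fun R _ _ => sq_nonneg _)
        _ ≤ 1 := (hcol1 v).trans hc1
    rwa [← div_eq_mul_inv, div_le_one (by positivity)] at h1
  obtain ⟨a1, b1, b2, b3, b4⟩ := iter c1 h y hy V W A1 a hcol1 hrow1 hcols1 ha
  obtain ⟨a2, d1, d2, d3, d4⟩ := sparsify hLLL y hy V W A1 a1
    (fun v => (hcol1 v).trans hc1) hrow1 hcols1 b1 b2
  refine ⟨A1, a2, hcol1, d1, fun v hv => ?_, fun R => ?_, d4, fun x hx hxa R => ?_⟩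
  · have h1 := b3 v hv
    rw [← h1]
    exact d2 v (by rw [h1]; exact hv)
  · have h1 : ∑ v, A1 R v * (a2 v - a v) = ∑ v, A1 R v * (a1 v - a v) +
        ∑ v, A1 R v * (a2 v - a1 v) := by
      rw [← Finset.sum_add_distrib]
      exact Finset.sum_congr rfl fun v _ => by ring
    rw [h1]
    exact (abs_add_le _ _).trans (add_le_add (b4 R) (d3 R))
  · have h1 : ∑ v, (A R v - A1 R v) * (x v - a v) =
        ∑ v ∈ supp (fun v => A R v * (1 - |a v|)), (A R v - A1 R v) * (x v - a v) := by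
      symm
      refine Finset.sum_subset (Finset.subset_univ _) fun v _ hv => ?_
      have h2 : A R v * (1 - |a v|) = 0 := by
        by_contra h0
        exact hv ((mem_supp _ _).mpr h0)
      rcases mul_eq_zero.1 h2 with h3 | h3
      · have h4 : A1 R v = 0 := by
          simp only [hA1, h3]
          split_ifs <;> rfl
        rw [h3, h4]; ring
      · rw [hxa v (by linarith)]; ring
    rw [h1]
    refine (Finset.abs_sum_le_sum_abs _ _).trans ?_
    have h2 : ∀ v ∈ supp (fun v => A R v * (1 - |a v|)),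
        |(A R v - A1 R v) * (x v - a v)| ≤ 2 * (y ^ 200)⁻¹ := by
      intro v hv
      rw [mem_supp] at hv
      have h3 : |a v| < 1 := by
        have h4 := right_ne_zero_of_mul hv
        have h5 := ha v
        exact lt_of_le_of_ne h5 fun h6 => h4 (by rw [h6]; ring)
      rw [abs_mul]
      have h4 : |A R v - A1 R v| ≤ (y ^ 200)⁻¹ := by
        simp only [hA1]
        split_ifs with h5
        · rw [sub_self, abs_zero]; positivity
        · rw [sub_zero]
          by_contra h6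
          push Not at h6
          exact h5 ⟨h3, h6.le⟩
      have h5 : |x v - a v| ≤ 2 := by
        calc |x v - a v| ≤ |x v| + |a v| := abs_sub _ _
          _ ≤ 2 := by linarith [hx v, ha v]
      calc |A R v - A1 R v| * |x v - a v| ≤ (y ^ 200)⁻¹ * 2 :=
            mul_le_mul h4 h5 (abs_nonneg _) (by positivity)
        _ = 2 * (y ^ 200)⁻¹ := by ring
    refine (Finset.sum_le_sum h2).trans ?_
    rw [Finset.sum_const, nsmul_eq_mul]
    calc ((supp (fun v => A R v * (1 - |a v|))).card : ℝ) * (2 * (y ^ 200)⁻¹)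
        ≤ y ^ 100 * (2 * (y ^ 200)⁻¹) := mul_le_mul_of_nonneg_right (hrow R) (by positivity)
      _ = 2 / y ^ 100 := by
          have : y ^ 200 = y ^ 100 * y ^ 100 := by rw [← pow_add]
          rw [this]
          field_simp
      _ ≤ 1 := by
          rw [div_le_one (by positivity)]
          calc (2:ℝ) ≤ y := by linarith
            _ ≤ y ^ 100 := le_self_pow₀ hy1 (by norm_num)

/-- the recursion -/
theorem recur : ∃ c1 : ℝ, 0 < c1 ∧ c1 ≤ 1 ∧ ∀ (n : ℕ) (y : ℝ), 1 ≤ y →
    Real.log y ≤ (100 / 87) ^ n * Real.log (10 ^ 8) →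
    ∀ (V W : Type) [Fintype V] [Fintype W] (A : W → V → ℝ) (a : V → ℝ),
    (∀ v, ∑ R, A R v ^ 2 ≤ c1) → (∀ v, |a v| ≤ 1) →
    (∀ R, ((supp (fun v => A R v * (1 - |a v|))).card : ℝ) ≤ y ^ 100) →
    ∃ x : V → ℝ, (∀ v, x v = 1 ∨ x v = -1) ∧ (∀ v, |a v| = 1 → x v = a v) ∧
      ∀ R, |∑ v, A R v * (x v - a v)| ≤ (10 ^ 8) ^ 100 + 6200 * Real.log y := by
  classical
  obtain ⟨c1, hc10, hc1, hph⟩ := phase
  refine ⟨c1, hc10, hc1, ?_⟩
  have hLLL : St_LLL := prove_LLL prove_MIX
  -- the base case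
  have base : ∀ (y : ℝ), 1 ≤ y → y ≤ 10 ^ 8 →
    ∀ (V W : Type) [Fintype V] [Fintype W] (A : W → V → ℝ) (a : V → ℝ),
    (∀ v, ∑ R, A R v ^ 2 ≤ c1) → (∀ v, |a v| ≤ 1) →
    (∀ R, ((supp (fun v => A R v * (1 - |a v|))).card : ℝ) ≤ y ^ 100) →
    ∃ x : V → ℝ, (∀ v, x v = 1 ∨ x v = -1) ∧ (∀ v, |a v| = 1 → x v = a v) ∧
      ∀ R, |∑ v, A R v * (x v - a v)| ≤ (10 ^ 8) ^ 100 + 6200 * Real.log y := by
    intro y hy1 hy V W _ _ A a hcol ha hrow
    have hAabs : ∀ R v, |A R v| ≤ 1 := by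
      intro R v
      have h1 : A R v ^ 2 ≤ 1 := by
        refine le_trans ?_ ((hcol v).trans hc1)
        exact Finset.single_le_sum (f := fun R => A R v ^ 2)
          (fun u _ => sq_nonneg _) (Finset.mem_univ R)
      exact (sq_le_one_iff_abs_le_one _).1 h1
    have hx : ∀ v, |PHASE.sg a v - a v| = 1 - |a v| := by
      intro v
      have h1 := PHASE.sg_mul a v
      rcases PHASE.sg_cases a v with h2 | h2
      · rw [h2] at h1 ⊢
        rw [one_mul] at h1
        rw [abs_of_nonneg (by linarith [ha v, le_abs_self (a v)])]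
        linarith
      · rw [h2] at h1 ⊢
        rw [← h1, abs_of_nonpos (by linarith [ha v, neg_le_abs (a v)])]
        ring
    refine ⟨PHASE.sg a, PHASE.sg_cases a, fun v hv => ?_, fun R => ?_⟩
    · have h1 := hx v
      rw [hv, sub_self, abs_eq_zero] at h1
      linarith
    · have h1 : ∑ v, A R v * (PHASE.sg a v - a v) =
          ∑ v ∈ supp (fun v => A R v * (1 - |a v|)), A R v * (PHASE.sg a v - a v) := by
        symm
        refine Finset.sum_subset (Finset.subset_univ _) fun v _ hv => ?_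
        have h2 : A R v * (1 - |a v|) = 0 := by
          by_contra h0
          exact hv ((mem_supp _ _).mpr h0)
        rcases mul_eq_zero.1 h2 with h3 | h3
        · rw [h3]; ring
        · have h4 := hx v
          rw [h3, abs_eq_zero] at h4
          rw [h4]; ring
      rw [h1]
      refine (Finset.abs_sum_le_sum_abs _ _).trans ?_
      have h2 : ∀ v ∈ supp (fun v => A R v * (1 - |a v|)), |A R v * (PHASE.sg a v - a v)| ≤ 1 := by
        intro v _
        rw [abs_mul, hx v]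
        have h3 := hAabs R v
        have h4 := ha v
        have h5 := abs_nonneg (a v)
        have h6 := abs_nonneg (A R v)
        nlinarith
      refine (Finset.sum_le_sum h2).trans ?_
      rw [Finset.sum_const, nsmul_eq_mul, mul_one]
      have h3 : y ^ 100 ≤ (10 ^ 8) ^ 100 := pow_le_pow_left₀ (by linarith) hy 100
      have h4 : 0 ≤ Real.log y := Real.log_nonneg hy1
      linarith [hrow R]
  intro n
  induction n with
  | zero =>
    intro y hy1 hy
    rw [pow_zero, one_mul] at hy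
    have h1 : y ≤ 10 ^ 8 := (Real.log_le_log_iff (by linarith) (by norm_num)).1 hy
    intro V W _ _ A a h2 h3 h4
    exact base y hy1 h1 V W A a h2 h3 h4
  | succ n ih =>
    intro y hy1 hy V W _ _ A a hcol ha hrow
    by_cases hyb : y ≤ 10 ^ 8
    · exact base y hy1 hyb V W A a hcol ha hrow
    push Not at hyb
    have hy0 : 0 < y := by linarith
    obtain ⟨A1, a', e1, e2, e3, e4, e5, e6⟩ := step c1 hc1 hph hLLL y hyb.le V W A a hcol ha hrow
    have hlog : Real.log (y ^ (87 / 100 : ℝ)) = 87 / 100 * Real.log y := Real.log_rpow hy0 _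
    obtain ⟨x, x1, x2, x3⟩ := ih (y ^ (87 / 100 : ℝ)) (Real.one_le_rpow hy1 (by norm_num))
      (by
        rw [hlog]
        rw [pow_succ] at hy
        linarith) V W A1 a' e1 e2 (by
        intro R
        refine (e5 R).trans (le_of_eq ?_)
        rw [← Real.rpow_natCast (y ^ (87 / 100 : ℝ)) 100, ← Real.rpow_mul hy0.le,
          ← Real.rpow_natCast y 87]
        norm_num)
    have hxa : ∀ v, |a v| = 1 → x v = a v := by
      intro v hv
      have h1 := e3 v hv
      rw [← h1]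
      exact x2 v (by rw [h1]; exact hv)
    have hxabs : ∀ v, |x v| ≤ 1 := by
      intro v
      rcases x1 v with h | h <;> rw [h] <;> norm_num
    refine ⟨x, x1, hxa, fun R => ?_⟩
    have h1 : ∑ v, A R v * (x v - a v) = ∑ v, A1 R v * (x v - a' v) +
        ∑ v, A1 R v * (a' v - a v) + ∑ v, (A R v - A1 R v) * (x v - a v) := by
      rw [← Finset.sum_add_distrib, ← Finset.sum_add_distrib]
      exact Finset.sum_congr rfl fun v _ => by ring
    rw [h1]
    have h2 := x3 R
    rw [hlog] at h2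
    have h3 := e4 R
    have h4 := e6 x hxabs hxa R
    have h5 : 18 ≤ Real.log y := by
      have h6 : Real.log (10 ^ 8) ≤ Real.log y := Real.log_le_log (by norm_num) hyb.le
      have h7 : (18 : ℝ) ≤ Real.log (10 ^ 8) := by
        rw [Real.le_log_iff_exp_le (by norm_num)]
        have h8 : Real.exp 18 = (Real.exp 1) ^ 18 := by
          rw [← Real.exp_nat_mul]; norm_num
        rw [h8]
        have h9 := Real.exp_one_lt_d9
        calc (Real.exp 1) ^ 18 ≤ (2.7182818286) ^ 18 :=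
              pow_le_pow_left₀ (Real.exp_pos _).le h9.le 18
          _ ≤ 10 ^ 8 := by norm_num
      linarith
    calc _ ≤ |∑ v, A1 R v * (x v - a' v) + ∑ v, A1 R v * (a' v - a v)| +
          |∑ v, (A R v - A1 R v) * (x v - a v)| := abs_add_le _ _
      _ ≤ (|∑ v, A1 R v * (x v - a' v)| + |∑ v, A1 R v * (a' v - a v)|) +
          |∑ v, (A R v - A1 R v) * (x v - a v)| := by
          have := abs_add_le (∑ v, A1 R v * (x v - a' v)) (∑ v, A1 R v * (a' v - a v))
          linarith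
      _ ≤ _ := by linarith

/-- Main theorem, with an arbitrary starting point. -/
theorem main : ∃ C : ℝ, 0 < C ∧ ∀ (D : ℝ), 1 ≤ D →
    ∀ (V W : Type) [Fintype V] [Fintype W] (A : W → V → ℝ) (a : V → ℝ),
    (∀ v, ∑ R, A R v ^ 2 ≤ 1) → (∀ v, |a v| ≤ 1) →
    (∀ R, ((supp (fun v => A R v * (1 - |a v|))).card : ℝ) ≤ D) →
    ∃ x : V → ℝ, (∀ v, x v = 1 ∨ x v = -1) ∧ (∀ v, |a v| = 1 → x v = a v) ∧
      ∀ R, |∑ v, A R v * (x v - a v)| ≤ C * (1 + Real.log D) := by
  obtain ⟨c1, hc10, hc1, h⟩ := recur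
  have hsc : 0 < Real.sqrt c1 := Real.sqrt_pos.2 hc10
  refine ⟨(10 ^ 8) ^ 100 / Real.sqrt c1, by positivity, ?_⟩
  intro D hD V W _ _ A a hcol ha hrow
  have hD0 : 0 < D := by linarith
  set y : ℝ := D ^ (1 / 100 : ℝ) with hy
  have hy1 : 1 ≤ y := Real.one_le_rpow hD (by norm_num)
  have hyD : y ^ 100 = D := by
    rw [hy, ← Real.rpow_natCast, ← Real.rpow_mul hD0.le]
    norm_num
  have hlogy : Real.log y = Real.log D / 100 := by
    rw [hy, Real.log_rpow hD0]; ring
  have hlD : 0 ≤ Real.log D := Real.log_nonneg hD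
  obtain ⟨n, hn⟩ : ∃ n : ℕ, Real.log y ≤ (100 / 87) ^ n * Real.log (10 ^ 8) := by
    obtain ⟨n, hn⟩ := pow_unbounded_of_one_lt (Real.log y) (show (1:ℝ) < 100 / 87 by norm_num)
    refine ⟨n, hn.le.trans ?_⟩
    refine le_mul_of_one_le_right (by positivity) ?_
    rw [Real.le_log_iff_exp_le (by norm_num)]
    have := Real.exp_one_lt_d9
    norm_num
    linarith
  obtain ⟨x, x1, x2, x3⟩ := h n y hy1 hn V W (fun R v => Real.sqrt c1 * A R v) a
    (by
      intro v
      have e1 : ∀ R, (Real.sqrt c1 * A R v) ^ 2 = c1 * A R v ^ 2 := by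
        intro R
        rw [mul_pow, Real.sq_sqrt hc10.le]
      simp only [e1]
      rw [← Finset.mul_sum]
      have := hcol v
      nlinarith) ha (by
      intro R
      rw [hyD]
      refine le_trans ?_ (hrow R)
      rw [Nat.cast_le]
      refine Finset.card_le_card fun v hv => ?_
      rw [mem_supp] at hv ⊢
      intro h0
      apply hv
      rw [mul_assoc, h0, mul_zero])
  refine ⟨x, x1, x2, fun R => ?_⟩
  have h1 := x3 R
  have h2 : ∑ v, Real.sqrt c1 * A R v * (x v - a v) =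
      Real.sqrt c1 * ∑ v, A R v * (x v - a v) := by
    rw [Finset.mul_sum]
    exact Finset.sum_congr rfl fun v _ => by ring
  rw [h2, abs_mul, abs_of_pos hsc, hlogy] at h1
  have h3 : |∑ v, A R v * (x v - a v)| ≤
      ((10 ^ 8) ^ 100 + 6200 * (Real.log D / 100)) / Real.sqrt c1 := by
    rw [le_div_iff₀ hsc, mul_comm]
    exact h1
  refine h3.trans ?_
  rw [div_mul_eq_mul_div]
  refine div_le_div_of_nonneg_right ?_ hsc.le
  have h4 : (62 : ℝ) ≤ (10 ^ 8) ^ 100 := by norm_num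
  nlinarith

end

end Pool.Agent.N421.KD
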