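import Pool.Agent.N421.KD.Cor

set_option autoImplicit false

/-!
# Prefix sums in arbitrary orders

Every row has its own linear order of the columns (an injective key). Dyadic blocks of the ranks
in the support are added as rows.
-/

open Finset

namespace Pool.Agent.N421.KD

open Pool.Agent.R959.LD2

noncomputable section

/-- dyadic decomposition of a prefix -/
theorem dyadic_aux (g : ℕ → ℝ) (B : ℝ) (hB : 0 ≤ B) (J : ℕ)
    (h : ∀ j ≤ J, ∀ i, |∑ s ∈ Ico (i * 2 ^ j) ((i + 1) * 2 ^ j), g s| ≤ B) :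
    ∀ i n, n < 2 ^ J → |∑ s ∈ Ico (i * 2 ^ J) (i * 2 ^ J + n), g s| ≤ J * B := by
  induction J with
  | zero =>
    intro i n hn
    have : n = 0 := by simpa using hn
    subst this
    simp
  | succ J ih =>
    intro i n hn
    have ih' := ih (fun j hj i => h j (by omega) i)
    have e1 : i * 2 ^ (J + 1) = (2 * i) * 2 ^ J := by rw [pow_succ]; ring
    rw [e1]
    by_cases h1 : n < 2 ^ J
    · refine (ih' (2 * i) n h1).trans ?_
      push_cast
      nlinarith
    · push Not at h1
      obtain ⟨n', rfl⟩ : ∃ n', n = 2 ^ J + n' := ⟨n - 2 ^ J, by omega⟩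
      have h2 : n' < 2 ^ J := by rw [pow_succ] at hn; omega
      have e2 : (2 * i) * 2 ^ J + (2 ^ J + n') = (2 * i + 1) * 2 ^ J + n' := by ring
      have h3 := h J (by omega) (2 * i)
      have h4 := ih' (2 * i + 1) n' h2
      rw [e2, ← Finset.sum_Ico_consecutive g
        (show 2 * i * 2 ^ J ≤ (2 * i + 1) * 2 ^ J by gcongr; omega)
        (show (2 * i + 1) * 2 ^ J ≤ (2 * i + 1) * 2 ^ J + n' by omega)]
      refine (abs_add_le _ _).trans ?_
      push_cast
      linarith

theorem dyadic (g : ℕ → ℝ) (B : ℝ) (hB : 0 ≤ B) (J : ℕ)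
    (h : ∀ j ≤ J, ∀ i, |∑ s ∈ Ico (i * 2 ^ j) ((i + 1) * 2 ^ j), g s| ≤ B) (s : ℕ) :
    |∑ t ∈ range s, g t| ≤ ((s / 2 ^ J : ℕ) + J) * B := by
  have key : ∀ q : ℕ, |∑ t ∈ range (q * 2 ^ J), g t| ≤ q * B := by
    intro q
    induction q with
    | zero => simp
    | succ q ih =>
      have h1 := h J le_rfl q
      rw [Finset.range_eq_Ico] at ih ⊢
      rw [← Finset.sum_Ico_consecutive g (Nat.zero_le (q * 2 ^ J))
        (show q * 2 ^ J ≤ (q + 1) * 2 ^ J by gcongr; omega)]
      refine (abs_add_le _ _).trans ?_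
      push_cast
      linarith
  have hp : 0 < 2 ^ J := by positivity
  have e1 : s = (s / 2 ^ J) * 2 ^ J + s % 2 ^ J := by
    rw [mul_comm]; exact (Nat.div_add_mod s (2 ^ J)).symm
  have h2 := key (s / 2 ^ J)
  have h3 := dyadic_aux g B hB J h (s / 2 ^ J) (s % 2 ^ J) (Nat.mod_lt _ hp)
  have e2 : ∑ t ∈ range s, g t = ∑ t ∈ range ((s / 2 ^ J) * 2 ^ J), g t +
      ∑ t ∈ Ico ((s / 2 ^ J) * 2 ^ J) ((s / 2 ^ J) * 2 ^ J + s % 2 ^ J), g t := by
    rw [Finset.range_eq_Ico, Finset.range_eq_Ico,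
      Finset.sum_Ico_consecutive g (Nat.zero_le _) (Nat.le_add_right _ _), ← e1]
  rw [e2]
  refine (abs_add_le _ _).trans ?_
  linarith

open Classical in
/-- rank in the support with respect to a key -/
def rko {V : Type} [Fintype V] (f : V → ℝ) (ρ : V → ℕ) (v : V) : ℕ :=
  ((supp f).filter (fun u => ρ u < ρ v)).card

theorem rko_lt {V : Type} [Fintype V] (f : V → ℝ) (ρ : V → ℕ) (u v : V) (hu : u ∈ supp f)
    (h : ρ u < ρ v) : rko f ρ u < rko f ρ v := by
  classical
  unfold rko
  refine Finset.card_lt_card ?_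
  rw [Finset.ssubset_iff_of_subset]
  · refine ⟨u, ?_, ?_⟩
    · rw [Finset.mem_filter]
      exact ⟨hu, h⟩
    · rw [Finset.mem_filter]
      intro h1
      exact lt_irrefl _ h1.2
  · intro w hw
    rw [Finset.mem_filter] at hw ⊢
    exact ⟨hw.1, hw.2.trans h⟩

theorem rko_inj {V : Type} [Fintype V] (f : V → ℝ) (ρ : V → ℕ) (hρ : Function.Injective ρ)
    (u v : V) (hu : u ∈ supp f) (hv : v ∈ supp f) (h : rko f ρ u = rko f ρ v) : u = v := by
  rcases lt_trichotomy (ρ u) (ρ v) with h1 | h1 | h1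
  · exact absurd h (rko_lt f ρ u v hu h1).ne
  · exact hρ h1
  · exact absurd h (rko_lt f ρ v u hv h1).ne'

theorem rko_le_card {V : Type} [Fintype V] (f : V → ℝ) (ρ : V → ℕ) (v : V) :
    rko f ρ v ≤ Fintype.card V := by
  classical
  exact (Finset.card_filter_le _ _).trans (Finset.card_le_univ _)

open Classical in
theorem rko_lt_iff {V : Type} [Fintype V] (f : V → ℝ) (ρ : V → ℕ) (m : ℕ) (v : V)
    (hv : v ∈ supp f) : rko f ρ v < ((supp f).filter (fun u => ρ u < m)).card ↔ ρ v < m := by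
  constructor
  · intro h
    by_contra h1
    push Not at h1
    refine absurd h (not_lt.2 ?_)
    unfold rko
    refine Finset.card_le_card fun w hw => ?_
    rw [Finset.mem_filter] at hw ⊢
    exact ⟨hw.1, by omega⟩
  · intro h
    unfold rko
    refine Finset.card_lt_card ?_
    rw [Finset.ssubset_iff_of_subset]
    · refine ⟨v, ?_, ?_⟩
      · rw [Finset.mem_filter]
        exact ⟨hv, h⟩
      · rw [Finset.mem_filter]
        intro h1
        exact lt_irrefl _ h1.2
    · intro w hw
      rw [Finset.mem_filter] at hw ⊢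
      exact ⟨hw.1, hw.2.trans h⟩

open Classical in
/-- Prefix sums in arbitrary orders of the columns, one for every row. -/
theorem orders : ∃ C : ℝ, 0 < C ∧ ∀ (D : ℕ), 1 ≤ D →
    ∀ (V W : Type) [Fintype V] [Fintype W] (A : W → V → ℝ) (a : V → ℝ) (ρ : W → V → ℕ),
    (∀ v, ∑ R, A R v ^ 2 ≤ 1) → (∀ v, |a v| ≤ 1) → (∀ R, Function.Injective (ρ R)) →
    ∃ x : V → ℝ, (∀ v, x v = 1 ∨ x v = -1) ∧ (∀ v, |a v| = 1 → x v = a v) ∧
      ∀ (R : W) (m : ℕ), |∑ v ∈ univ.filter (fun v => ρ R v < m), A R v * (x v - a v)| ≤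
        C * (1 + Real.log D) ^ (5 / 2 : ℝ) *
          (1 + (((supp (fun v => A R v * (1 - |a v|))).filter (fun v => ρ R v < m)).card : ℝ)
            / D) := by
  obtain ⟨C, hC, h⟩ := main
  refine ⟨4 * C, by positivity, ?_⟩
  intro D hD V W _ _ A a ρ hcol ha hρ
  have hD1 : (1 : ℝ) ≤ D := by exact_mod_cast hD
  have hD0 : (0 : ℝ) < D := by linarith
  have hlog : 0 ≤ Real.log D := Real.log_nonneg hD1
  set J : ℕ := Nat.log 2 D with hJ
  have hJD : 2 ^ J ≤ D := Nat.pow_log_le_self 2 (by omega)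
  have hDJ : D < 2 ^ (J + 1) := Nat.lt_pow_succ_log_self (by norm_num) D
  set f : W → V → ℝ := fun R v => A R v * (1 - |a v|) with hf
  set r : W → V → ℕ := fun R v => rko (f R) (ρ R) v with hr
  have hJ1 : (0 : ℝ) < (J : ℝ) + 1 := by positivity
  have hsq : 0 < Real.sqrt ((J : ℝ) + 1) := Real.sqrt_pos.2 hJ1
  have hrV : ∀ R v j, r R v / 2 ^ j < Fintype.card V + 1 := by
    intro R v j
    have h1 : r R v / 2 ^ j ≤ r R v := Nat.div_le_self _ _
    have h2 := rko_le_card (f R) (ρ R) v
    have h3 : r R v = rko (f R) (ρ R) v := rfl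
    omega
  set A' : W × (Fin (J + 1) × Fin (Fintype.card V + 1)) → V → ℝ := fun p v =>
    if r p.1 v / 2 ^ (p.2.1 : ℕ) = (p.2.2 : ℕ) then A p.1 v / Real.sqrt ((J : ℝ) + 1) else 0
    with hA'
  obtain ⟨x, x1, x2, x3⟩ := h D hD1 V (W × (Fin (J + 1) × Fin (Fintype.card V + 1))) A' a (by
    intro v
    rw [Fintype.sum_prod_type]
    refine le_trans (Finset.sum_le_sum fun R _ => ?_) (hcol v)
    rw [Fintype.sum_prod_type]
    have h1 : ∀ j : Fin (J + 1), ∑ i : Fin (Fintype.card V + 1), A' (R, (j, i)) v ^ 2 =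
        A R v ^ 2 / ((J : ℝ) + 1) := by
      intro j
      have h2 : ∀ i : Fin (Fintype.card V + 1), A' (R, (j, i)) v ^ 2 =
          if i = ⟨r R v / 2 ^ (j : ℕ), hrV R v j⟩ then A R v ^ 2 / ((J : ℝ) + 1) else 0 := by
        intro i
        simp only [hA']
        by_cases hi : r R v / 2 ^ (j : ℕ) = (i : ℕ)
        · rw [if_pos hi, if_pos (Fin.ext hi.symm), div_pow, Real.sq_sqrt hJ1.le]
        · rw [if_neg hi, if_neg (fun h2 => hi (by rw [h2]))]
          norm_num
      simp only [h2]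
      rw [Finset.sum_ite_eq']
      simp
    simp only [h1]
    rw [Finset.sum_const, Finset.card_univ, Fintype.card_fin, nsmul_eq_mul]
    push_cast
    rw [mul_div_assoc', mul_comm, mul_div_assoc, div_self hJ1.ne', mul_one]) ha (by
    rintro ⟨R, j, i⟩
    rw [Nat.cast_le]
    have hj : 2 ^ (j : ℕ) ≤ D := le_trans (Nat.pow_le_pow_right (by norm_num) (by omega)) hJD
    calc (supp (fun v => A' (R, (j, i)) v * (1 - |a v|))).card
        ≤ (Finset.Ico ((i : ℕ) * 2 ^ (j : ℕ)) ((i : ℕ) * 2 ^ (j : ℕ) + 2 ^ (j : ℕ))).card := by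
          refine Finset.card_le_card_of_injOn (r R) ?_ ?_
          · intro v hv
            have hv' := (mem_supp _ _).1 (Finset.mem_coe.1 hv)
            simp only [hA'] at hv'
            split_ifs at hv' with h1
            · rw [Finset.coe_Ico, Set.mem_Ico]
              rw [← h1]
              constructor
              · exact Nat.div_mul_le_self _ _
              · exact Nat.lt_div_mul_add (by positivity)
            · exact absurd (zero_mul _) hv'
          · intro u hu v hv huv
            have hsub : ∀ w, w ∈ (supp (fun v => A' (R, (j, i)) v * (1 - |a v|)) : Set V) →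
                w ∈ supp (f R) := by
              intro w hw
              have hw' := (mem_supp _ _).1 (Finset.mem_coe.1 hw)
              simp only [hA'] at hw'
              rw [mem_supp]
              split_ifs at hw' with h1
              · simp only [hf]
                intro h2
                apply hw'
                rw [div_mul_eq_mul_div, h2, zero_div]
              · exact absurd (zero_mul _) hw'
            exact rko_inj _ _ (hρ R) u v (hsub u hu) (hsub v hv) huv
      _ = 2 ^ (j : ℕ) := by simp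
      _ ≤ D := hj)
  refine ⟨x, x1, x2, fun R m => ?_⟩
  have hz : ∀ v, v ∉ supp (f R) → A R v * (x v - a v) = 0 := by
    intro v hv
    have h1 : f R v = 0 := by
      by_contra h2
      exact hv ((mem_supp _ _).2 h2)
    simp only [hf] at h1
    rcases mul_eq_zero.1 h1 with h2 | h2
    · rw [h2, zero_mul]
    · rw [x2 v (by linarith)]
      ring
  set s : ℕ := ((supp (f R)).filter (fun v => ρ R v < m)).card with hs
  set g : ℕ → ℝ := fun t => ∑ v ∈ (supp (f R)).filter (fun v => r R v = t), A R v * (x v - a v)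
    with hg
  have hgsum : ∀ T : Finset ℕ, ∑ t ∈ T, g t =
      ∑ v ∈ (supp (f R)).filter (fun v => r R v ∈ T), A R v * (x v - a v) := by
    intro T
    simp only [hg]
    rw [← Finset.sum_fiberwise_of_maps_to (s := (supp (f R)).filter (fun v => r R v ∈ T)) (t := T)
      (g := r R) (f := fun v => A R v * (x v - a v))]
    · refine Finset.sum_congr rfl fun t ht => ?_
      refine Finset.sum_congr ?_ fun _ _ => rfl
      ext v
      simp only [Finset.mem_filter]
      constructor
      · rintro ⟨h1, h2⟩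
        exact ⟨⟨h1, h2 ▸ ht⟩, h2⟩
      · rintro ⟨⟨h1, h2⟩, h3⟩
        exact ⟨h1, h3⟩
    · intro v hv
      exact (Finset.mem_filter.1 hv).2
  set B : ℝ := Real.sqrt ((J : ℝ) + 1) * (C * (1 + Real.log D)) with hB
  have hB0 : 0 ≤ B := by positivity
  have hblock : ∀ j ≤ J, ∀ i, |∑ t ∈ Ico (i * 2 ^ j) ((i + 1) * 2 ^ j), g t| ≤ B := by
    intro j hj i
    rw [hgsum]
    have hmem : ∀ v, r R v ∈ Ico (i * 2 ^ j) ((i + 1) * 2 ^ j) ↔ r R v / 2 ^ j = i := by
      intro v
      rw [Finset.mem_Ico, Nat.div_eq_iff (by positivity)]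
      constructor
      · rintro ⟨h1, h2⟩
        constructor
        · exact h1
        · have : (i + 1) * 2 ^ j = i * 2 ^ j + 2 ^ j := by ring
          have hp : 0 < 2 ^ j := by positivity
          omega
      · rintro ⟨h1, h2⟩
        constructor
        · exact h1
        · have : (i + 1) * 2 ^ j = i * 2 ^ j + 2 ^ j := by ring
          have hp : 0 < 2 ^ j := by positivity
          omega
    by_cases hi : i < Fintype.card V + 1
    · have h1 := x3 (R, (⟨j, by omega⟩, ⟨i, hi⟩))
      have e1 : ∑ v, A' (R, (⟨j, by omega⟩, ⟨i, hi⟩)) v * (x v - a v) =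
          (∑ v ∈ (supp (f R)).filter (fun v => r R v ∈ Ico (i * 2 ^ j) ((i + 1) * 2 ^ j)),
            A R v * (x v - a v)) / Real.sqrt ((J : ℝ) + 1) := by
        rw [Finset.sum_div, Finset.sum_filter]
        have e2 : ∑ v ∈ supp (f R), (if r R v ∈ Ico (i * 2 ^ j) ((i + 1) * 2 ^ j) then
            A R v * (x v - a v) / Real.sqrt ((J : ℝ) + 1) else 0) =
            ∑ v, (if r R v ∈ Ico (i * 2 ^ j) ((i + 1) * 2 ^ j) then
            A R v * (x v - a v) / Real.sqrt ((J : ℝ) + 1) else 0) := by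
          refine Finset.sum_subset (Finset.subset_univ _) fun v _ hv => ?_
          rw [hz v hv]
          simp
        rw [e2]
        refine Finset.sum_congr rfl fun v _ => ?_
        simp only [hA']
        by_cases h3 : r R v / 2 ^ j = i
        · rw [if_pos h3, if_pos ((hmem v).2 h3)]
          ring
        · rw [if_neg h3, if_neg (fun h4 => h3 ((hmem v).1 h4))]
          ring
      rw [e1, abs_div, abs_of_pos hsq, div_le_iff₀ hsq] at h1
      rw [hB]
      linarith
    · have e1 : (supp (f R)).filter (fun v => r R v ∈ Ico (i * 2 ^ j) ((i + 1) * 2 ^ j)) = ∅ := by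
        rw [Finset.filter_eq_empty_iff]
        intro v _ h1
        have h2 := (hmem v).1 h1
        have h3 := hrV R v j
        omega
      rw [e1]
      simpa using hB0
  have h1 := dyadic g B hB0 J hblock s
  have e1 : ∑ v ∈ univ.filter (fun v => ρ R v < m), A R v * (x v - a v) = ∑ t ∈ range s, g t := by
    rw [hgsum]
    have e2 : (supp (f R)).filter (fun v => r R v ∈ range s) =
        (supp (f R)).filter (fun v => ρ R v < m) := by
      refine Finset.filter_congr fun v hv => ?_
      rw [Finset.mem_range]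
      exact rko_lt_iff (f R) (ρ R) m v hv
    rw [e2]
    symm
    refine Finset.sum_subset ?_ ?_
    · intro v hv
      rw [Finset.mem_filter] at hv ⊢
      exact ⟨Finset.mem_univ _, hv.2⟩
    · intro v hv hv'
      apply hz
      intro h2
      exact hv' (Finset.mem_filter.2 ⟨h2, (Finset.mem_filter.1 hv).2⟩)
  rw [e1]
  refine h1.trans ?_
  have hp : (0 : ℝ) < 2 ^ J := by positivity
  have hDJ' : (D : ℝ) ≤ 2 * 2 ^ J := by
    have : (D : ℝ) < 2 ^ (J + 1) := by exact_mod_cast hDJ
    rw [pow_succ] at this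
    linarith
  have hJD' : (2 : ℝ) ^ J ≤ D := by exact_mod_cast hJD
  have h2 : ((s / 2 ^ J : ℕ) : ℝ) ≤ 2 * ((s : ℝ) / D) := by
    have h3 : ((s / 2 ^ J : ℕ) : ℝ) ≤ (s : ℝ) / (2 ^ J : ℕ) := Nat.cast_div_le
    push_cast at h3
    have h4 : (s : ℝ) / 2 ^ J ≤ 2 * ((s : ℝ) / D) := by
      rw [div_le_iff₀ hp, mul_comm 2, mul_assoc, div_mul_eq_mul_div, le_div_iff₀ hD0]
      exact mul_le_mul_of_nonneg_left hDJ' (Nat.cast_nonneg _)
    exact h3.trans h4
  have h3 : (J : ℝ) + 1 ≤ 2 * (1 + Real.log D) := by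
    have h4 : (J : ℝ) * Real.log 2 ≤ Real.log D := by
      rw [← Real.log_pow]
      exact Real.log_le_log hp hJD'
    have h5 : (0.69 : ℝ) < Real.log 2 := by linarith [Real.log_two_gt_d9]
    have h6 : (0 : ℝ) ≤ J := Nat.cast_nonneg _
    nlinarith
  set L : ℝ := 1 + Real.log D with hL
  have hL1 : 1 ≤ L := by linarith
  have hL0 : 0 < L := by linarith
  have h4 : Real.sqrt ((J : ℝ) + 1) ≤ 2 * Real.sqrt L := by
    have : Real.sqrt ((J : ℝ) + 1) ≤ Real.sqrt (4 * L) := Real.sqrt_le_sqrt (by linarith)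
    rw [Real.sqrt_mul (by norm_num), show (4 : ℝ) = 2 ^ 2 by norm_num,
      Real.sqrt_sq (by norm_num)] at this
    exact this
  have hs0 : 0 ≤ (s : ℝ) / D := by positivity
  have h5 : ((s / 2 ^ J : ℕ) : ℝ) + J ≤ 2 * L * (1 + (s : ℝ) / D) := by nlinarith
  have e3 : L ^ (5 / 2 : ℝ) = L * L * Real.sqrt L := by
    rw [Real.sqrt_eq_rpow, show (5 / 2 : ℝ) = 1 + (1 + 1 / 2) by norm_num,
      Real.rpow_add hL0, Real.rpow_add hL0, Real.rpow_one, mul_assoc]
  rw [e3]
  have hsL : 0 ≤ Real.sqrt L := Real.sqrt_nonneg _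
  calc (((s / 2 ^ J : ℕ) : ℝ) + J) * B ≤ (2 * L * (1 + (s : ℝ) / D)) * B :=
        mul_le_mul_of_nonneg_right h5 hB0
    _ ≤ (2 * L * (1 + (s : ℝ) / D)) * ((2 * Real.sqrt L) * (C * L)) := by
        refine mul_le_mul_of_nonneg_left ?_ (by positivity)
        rw [hB]
        exact mul_le_mul_of_nonneg_right h4 (by positivity)
    _ = _ := by ring

end

end Pool.Agent.N421.KD
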