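import Pool.Agent.N421.KD.Core
import Pool.Agent.N421.KD.Param
import Pool.Agent.H320R2.LD.Chain

set_option autoImplicit false

/-!
# One phase, and the iteration of the phases
-/

open MeasureTheory ProbabilityTheory

namespace Pool.Agent.N421.KD

open Pool.Agent.H320R2.LD Pool.Agent.H320R2.LD.PHASE Pool.Agent.R959.LD2

noncomputable section

/-- the phase lemma -/
theorem phase : ∃ c1 : ℝ, 0 < c1 ∧ c1 ≤ 1 ∧ ∀ (y s : ℝ), 10 ^ 8 ≤ y → y ^ 60 ≤ s →
    ∀ (V W : Type) [Fintype V] [Fintype W] (A : W → V → ℝ) (a : V → ℝ),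
    (∀ v, ∑ R, A R v ^ 2 ≤ c1) → (∀ R, ((supp (A R)).card : ℝ) ≤ y ^ 100) →
    (∀ v, ((supp (fun R => A R v)).card : ℝ) ≤ y ^ 400) →
    (∀ v, |a v| ≤ 1) → (∀ R, Phi (ind A) a R ≤ s) →
    ∃ a' : V → ℝ, (∀ v, |a' v| ≤ 1) ∧ (∀ R, Phi (ind A) a' R ≤ 4/5 * s) ∧
      (∀ v, |a v| = 1 → a' v = a v) ∧ ∀ R, |∑ v, A R v * (a' v - a v)| ≤ 4 := by
  have mgf := prove_MGF
  have conc := prove_CONC mgf
  have mom := prove_MOM mgf
  have pot1 := prove_POT1
  have pot2 := prove_POT2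
  have two := prove_TWO
  have sol := prove_SOL pot1 two
  have mix := prove_MIX
  have lll := prove_LLL mix
  have cond := prove_COND conc mix
  have sh := prove_SH mix
  have far := prove_FAR sol conc mom pot2
  have hotp := prove_HOTP sol conc mgf mom pot2
  have ct := prove_CT two pot1
  have loc := prove_LOC hotp prove_PATH prove_CH ct sol cond
  obtain ⟨Ch, hCh, hEH⟩ := meanStiff sol mom pot2 400 (by norm_num)
  refine ⟨1 / (1 + 16000 * Ch), by positivity, ?_, ?_⟩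
  · rw [div_le_one (by positivity)]
    linarith
  intro y s hy hs V W _ _ A a hcol hrow hcols ha hPhi
  have hy0 : 0 < y := by linarith
  have hy1 : 1 ≤ y := by linarith
  set D : ℕ := ⌊y ^ 400⌋₊ with hD
  have hDy : (D : ℝ) ≤ y ^ 400 := Nat.floor_le (by positivity)
  obtain ⟨p1, p2, p3, p4, p5, p6, p7, p8, p9⟩ := param y hy s hs D hDy ⌈y ^ 56⌉₊ rfl
  have hw0 : 0 < (y ^ 17)⁻¹ := by positivity
  have hs0 : 0 < s := lt_of_lt_of_le (by positivity) hs
  have hcont := (pot1 1 ((y ^ 17)⁻¹) le_rfl hw0 (by linarith)).1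
  have hmono := (pot1 1 ((y ^ 17)⁻¹) le_rfl hw0 (by linarith)).2.2.1
  choose z hz using fun x => prove_EX V W (sc A a) (pf 1 ((y ^ 17)⁻¹)) hcont hmono x
  refine core sol loc sh two pot1 pot2 prove_DEP lll far prove_GEX conc A a s
    (1 / (1 + 16000 * Ch)) (y ^ 100) D ⌈y ^ 56⌉₊ hcol ?_ (by positivity)
    (one_le_pow₀ hy1) hrow ?_ ?_ ha hs0 hPhi 400 1 ((y ^ 17)⁻¹) ((y ^ 55)⁻¹) (y ^ 2)
    (Real.exp (-(y ^ 59))) ((y ^ 101)⁻¹) (1 / 10 ^ 12) Ch rfl rfl hw0 p2 rfl p3 p4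
    (by positivity) p5 p1 p6 (Real.exp_pos _) ?_ (by positivity) p7 p8 hCh
    (fun z hz R => hEH V W (sc A a) 1 _ z le_rfl hw0 (by linarith) hz R) ?_ p9 z hz
  · rw [div_le_one (by positivity)]
    linarith
  · intro R
    refine Nat.le_floor ((hrow R).trans ?_)
    exact pow_le_pow_right₀ hy1 (by norm_num)
  · intro v
    exact Nat.le_floor (hcols v)
  · rw [Real.exp_le_one_iff]
    have : 0 < y ^ 59 := by positivity
    linarith
  · have : 16 * (1 / (1 + 16000 * Ch) * Ch) = 16 * Ch / (1 + 16000 * Ch) := by ring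
    rw [this, div_le_div_iff₀ (by positivity) (by norm_num)]
    linarith

/-- iteration of the phases: the mass of every row gets small -/
theorem iter (c1 : ℝ) (h : ∀ (y s : ℝ), 10 ^ 8 ≤ y → y ^ 60 ≤ s →
    ∀ (V W : Type) [Fintype V] [Fintype W] (A : W → V → ℝ) (a : V → ℝ),
    (∀ v, ∑ R, A R v ^ 2 ≤ c1) → (∀ R, ((supp (A R)).card : ℝ) ≤ y ^ 100) →
    (∀ v, ((supp (fun R => A R v)).card : ℝ) ≤ y ^ 400) →
    (∀ v, |a v| ≤ 1) → (∀ R, Phi (ind A) a R ≤ s) →
    ∃ a' : V → ℝ, (∀ v, |a' v| ≤ 1) ∧ (∀ R, Phi (ind A) a' R ≤ 4/5 * s) ∧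
      (∀ v, |a v| = 1 → a' v = a v) ∧ ∀ R, |∑ v, A R v * (a' v - a v)| ≤ 4)
    (y : ℝ) (hy : 10 ^ 8 ≤ y) (V W : Type) [Fintype V] [Fintype W] (A : W → V → ℝ) (a : V → ℝ)
    (hcol : ∀ v, ∑ R, A R v ^ 2 ≤ c1) (hrow : ∀ R, ((supp (A R)).card : ℝ) ≤ y ^ 100)
    (hcols : ∀ v, ((supp (fun R => A R v)).card : ℝ) ≤ y ^ 400)
    (ha : ∀ v, |a v| ≤ 1) :
    ∃ a' : V → ℝ, (∀ v, |a' v| ≤ 1) ∧ (∀ R, Phi (ind A) a' R ≤ y ^ 61) ∧
      (∀ v, |a v| = 1 → a' v = a v) ∧
      ∀ R, |∑ v, A R v * (a' v - a v)| ≤ 4 * (1 + 200 * Real.log y) := by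
  classical
  have hy0 : 0 < y := by linarith
  have hy1 : 1 ≤ y := by linarith
  have hL : 0 ≤ Real.log y := Real.log_nonneg hy1
  have key : ∀ n : ℕ, ∃ a' : V → ℝ, (∀ v, |a' v| ≤ 1) ∧
      (∀ R, Phi (ind A) a' R ≤ max ((4/5) ^ n * y ^ 100) (y ^ 61)) ∧
      (∀ v, |a v| = 1 → a' v = a v) ∧ ∀ R, |∑ v, A R v * (a' v - a v)| ≤ 4 * n := by
    intro n
    induction n with
    | zero =>
      refine ⟨a, ha, fun R => ?_, fun v _ => rfl, fun R => by simp⟩
      refine le_max_of_le_left ?_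
      rw [pow_zero, one_mul]
      refine le_trans ?_ (hrow R)
      unfold Phi
      have h1 : ∑ v, ind A R v ^ 2 * Real.sqrt (1 - |a v|) ≤
          ∑ v, (if v ∈ supp (A R) then (1:ℝ) else 0) := by
        refine Finset.sum_le_sum fun v _ => ?_
        have h2 : Real.sqrt (1 - |a v|) ≤ 1 := by
          rw [Real.sqrt_le_one]
          linarith [abs_nonneg (a v)]
        by_cases hv : A R v = 0
        · rw [ind_zero A R v hv]
          split_ifs <;> simp
        · rw [if_pos ((mem_supp _ _).mpr hv)]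
          have h3 := ind_sq A R v
          have h4 := Real.sqrt_nonneg (1 - |a v|)
          nlinarith
      refine h1.trans (le_of_eq ?_)
      simp
    | succ n ih =>
      obtain ⟨a1, b1, b2, b3, b4⟩ := ih
      obtain ⟨a2, d1, d2, d3, d4⟩ := h y (max ((4/5) ^ n * y ^ 100) (y ^ 61)) hy
        (le_max_of_le_right (pow_le_pow_right₀ hy1 (by norm_num))) V W A a1 hcol hrow hcols b1 b2
      refine ⟨a2, d1, fun R => (d2 R).trans ?_, fun v hv => ?_, fun R => ?_⟩
      · rw [mul_max_of_nonneg _ _ (by norm_num : (0:ℝ) ≤ 4/5)]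
        refine max_le_max (le_of_eq ?_) ?_
        · rw [pow_succ]; ring
        · have : 0 < y ^ 61 := by positivity
          linarith
      · have h1 := b3 v hv
        rw [← h1]
        exact d3 v (by rw [h1]; exact hv)
      · have h1 : ∑ v, A R v * (a2 v - a v) = ∑ v, A R v * (a2 v - a1 v) +
            ∑ v, A R v * (a1 v - a v) := by
          rw [← Finset.sum_add_distrib]
          exact Finset.sum_congr rfl fun v _ => by ring
        rw [h1]
        refine (abs_add_le _ _).trans ?_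
        push_cast
        linarith [b4 R, d4 R]
  obtain ⟨a', h1, h2, h3, h4⟩ := key ⌈200 * Real.log y⌉₊
  refine ⟨a', h1, fun R => (h2 R).trans (max_le ?_ le_rfl), h3, fun R => (h4 R).trans ?_⟩
  · have e1 : (4/5 : ℝ) ^ ⌈200 * Real.log y⌉₊ ≤ Real.exp (-(40 * Real.log y)) := by
      have e2 : (4/5 : ℝ) ≤ Real.exp (-(1/5)) := by
        have := Real.add_one_le_exp (-(1/5) : ℝ)
        linarith
      calc (4/5 : ℝ) ^ ⌈200 * Real.log y⌉₊ ≤ (Real.exp (-(1/5))) ^ ⌈200 * Real.log y⌉₊ :=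
            pow_le_pow_left₀ (by norm_num) e2 _
        _ = Real.exp (-(1/5 * ⌈200 * Real.log y⌉₊)) := by
            rw [← Real.exp_nat_mul]
            congr 1
            ring
        _ ≤ Real.exp (-(40 * Real.log y)) := by
            apply Real.exp_le_exp.2
            have := Nat.le_ceil (200 * Real.log y)
            linarith
    have e3 : Real.exp (-(40 * Real.log y)) = (y ^ 40)⁻¹ := by
      rw [Real.exp_neg]
      congr 1
      have : (40 : ℝ) * Real.log y = Real.log (y ^ 40) := by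
        rw [Real.log_pow]; norm_num
      rw [this, Real.exp_log (by positivity)]
    rw [e3] at e1
    calc (4/5 : ℝ) ^ ⌈200 * Real.log y⌉₊ * y ^ 100 ≤ (y ^ 40)⁻¹ * y ^ 100 :=
          mul_le_mul_of_nonneg_right e1 (by positivity)
      _ = y ^ 60 := by
          field_simp
      _ ≤ y ^ 61 := pow_le_pow_right₀ hy1 (by norm_num)
  · have := (Nat.ceil_lt_add_one (show 0 ≤ 200 * Real.log y by positivity)).le
    linarith

end

end Pool.Agent.N421.KD
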