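import Pool.Agent.N421.KD.Cor
import Pool.Agent.R959.LD3.Cor3

set_option autoImplicit false

/-!
# Signings with bounded prefix sums
-/

open Finset

namespace Pool.Agent.N421.KD

open Pool.Agent.R959.LD2 Pool.Agent.R959.LD3

/-- The signing can be chosen with all prefix sums of the signs at most one. -/
theorem cut_prefix : ∃ C : ℝ, 0 < C ∧ ∀ (D : ℕ), 1 ≤ D →
    ∀ (n : ℕ) (W : Type) [Fintype W] (A : W → Fin n → ℝ), (∀ v, ∑ R, A R v ^ 2 ≤ 1) →
    ∃ x : Fin n → ℝ, (∀ v, x v = 1 ∨ x v = -1) ∧
      (∀ R, |∑ v, A R v * x v| ≤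
        C * (1 + Real.log D) * (1 + ((supp (A R)).card : ℝ) / D)) ∧
      ∀ c : ℕ, |∑ j ∈ univ.filter (fun j : Fin n => (j : ℕ) < c), x j| ≤ 1 := by
  classical
  obtain ⟨C, hC, h⟩ := cut
  refine ⟨2 * C, by positivity, fun D hD n W _ A hcol => ?_⟩
  have hD1 : (1 : ℝ) ≤ D := by exact_mod_cast hD
  have hlog : 0 ≤ Real.log D := Real.log_nonneg hD1
  set N := (n + 1) / 2 with hN
  have hnN : n ≤ 2 * N := by omega
  set Ae : W → ℕ → ℝ := fun i j => if h : j < n then A i ⟨j, h⟩ else 0 with hAe
  have hAe1 : ∀ i (j : Fin n), Ae i j = A i j := fun i j => by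
    simp only [hAe, j.2, dif_pos]
  have hAe2 : ∀ i j, n ≤ j → Ae i j = 0 := fun i j hj => by
    simp only [hAe, dif_neg (not_lt.mpr hj)]
  have hAec : ∀ j, ∑ i, Ae i j ^ 2 ≤ 1 := by
    intro j
    by_cases h : j < n
    · have : ∀ i, Ae i j ^ 2 = A i ⟨j, h⟩ ^ 2 := fun i => by simp only [hAe, dif_pos h]
      simp only [this]
      exact hcol _
    · have : ∀ i, Ae i j ^ 2 = 0 := fun i => by rw [hAe2 i j (not_lt.mp h)]; norm_num
      simp only [this, Finset.sum_const_zero]
      exact zero_le_one
  have hsum : ∀ (g : ℕ → ℝ), (∀ j, n ≤ j → g j = 0) → ∑ j : Fin n, g j = ∑ j ∈ range (2 * N), g j := by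
    intro g hg
    rw [Fin.sum_univ_eq_sum_range]
    refine Finset.sum_subset (Finset.range_subset_range.mpr hnN) fun j _ hj => ?_
    exact hg j (by simpa using hj)
  set B : W → Fin N → ℝ := fun i p => (Ae i (2 * p) - Ae i (2 * p + 1)) / 2 with hB
  have hsupp : ∀ i, (supp (B i)).card ≤ (supp (A i)).card := by
    intro i
    have hcov : (supp (B i)).map Fin.valEmbedding ⊆
        (supp (A i)).image (fun j : Fin n => (j : ℕ) / 2) := by
      intro p hp
      rw [Finset.mem_map] at hp
      obtain ⟨p', hp', rfl⟩ := hp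
      rw [mem_supp] at hp'
      rw [Finset.mem_image]
      have h8 : Ae i (2 * p') ≠ 0 ∨ Ae i (2 * p' + 1) ≠ 0 := by
        by_contra hcon
        push Not at hcon
        apply hp'
        simp only [hB]
        rw [hcon.1, hcon.2]
        ring
      rcases h8 with h8 | h8
      · have h9 : 2 * (p' : ℕ) < n := by
          by_contra h10
          exact h8 (hAe2 i _ (not_lt.mp h10))
        refine ⟨⟨2 * p', h9⟩, ?_, ?_⟩
        · rw [mem_supp, ← hAe1]
          exact h8
        · show 2 * (p' : ℕ) / 2 = p'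
          omega
      · have h9 : 2 * (p' : ℕ) + 1 < n := by
          by_contra h10
          exact h8 (hAe2 i _ (not_lt.mp h10))
        refine ⟨⟨2 * p' + 1, h9⟩, ?_, ?_⟩
        · rw [mem_supp, ← hAe1]
          exact h8
        · show (2 * (p' : ℕ) + 1) / 2 = p'
          omega
    calc (supp (B i)).card = ((supp (B i)).map Fin.valEmbedding).card := (Finset.card_map _).symm
      _ ≤ _ := Finset.card_le_card hcov
      _ ≤ (supp (A i)).card := Finset.card_image_le
  obtain ⟨z, hz, -, hb⟩ := h D hD (Fin N) W B (fun _ => 0) (by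
    intro p
    calc ∑ i, B i p ^ 2 ≤ ∑ i, (Ae i (2 * p) ^ 2 + Ae i (2 * p + 1) ^ 2) / 2 := by
          refine Finset.sum_le_sum fun i _ => ?_
          simp only [hB]
          nlinarith [sq_nonneg (Ae i (2 * p) + Ae i (2 * p + 1))]
      _ = ((∑ i, Ae i (2 * p) ^ 2) + ∑ i, Ae i (2 * p + 1) ^ 2) / 2 := by
          rw [← Finset.sum_div, Finset.sum_add_distrib]
      _ ≤ 1 := by linarith [hAec (2 * p), hAec (2 * p + 1)])
    (fun _ => by norm_num)
  set z' : ℕ → ℝ := fun p => if h : p < N then z ⟨p, h⟩ else 1 with hz'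
  have hz1 : ∀ p, z' p = 1 ∨ z' p = -1 := by
    intro p
    simp only [hz']
    split_ifs with h
    · exact hz _
    · exact Or.inl rfl
  have hye : ∀ j, ye z' j = 1 ∨ ye z' j = -1 := by
    intro j
    unfold ye
    split_ifs
    · exact hz1 _
    · rcases hz1 (j / 2) with h | h <;> rw [h] <;> simp
  refine ⟨fun j => ye z' j, fun j => hye j, fun i => ?_, fun c => ?_⟩
  · have e1 : ∑ j : Fin n, A i j * ye z' j = 2 * ∑ p, B i p * z p := by
      have e2 : ∑ j : Fin n, A i j * ye z' j = ∑ j : Fin n, (fun j => Ae i j * ye z' j) (j : ℕ) := by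
        refine Finset.sum_congr rfl fun j _ => ?_
        show A i j * ye z' j = Ae i j * ye z' j
        rw [hAe1]
      rw [e2, hsum (fun j => Ae i j * ye z' j) (fun j hj => by
        show Ae i j * ye z' j = 0
        rw [hAe2 i j hj, zero_mul]),
        sum_pairs (fun j => Ae i j * ye z' j), ← Fin.sum_univ_eq_sum_range
          (fun p => Ae i (2 * p) * ye z' (2 * p) + Ae i (2 * p + 1) * ye z' (2 * p + 1)),
        Finset.mul_sum]
      refine Finset.sum_congr rfl fun p _ => ?_
      rw [ye_even, ye_odd]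
      have e3 : z' (p : ℕ) = z p := by
        simp only [hz', p.2, dif_pos]
      rw [e3]
      simp only [hB]
      ring
    rw [e1, abs_mul, abs_of_pos (by norm_num : (0 : ℝ) < 2)]
    have hb' := hb i
    simp only [sub_zero, abs_zero, mul_one] at hb'
    have hs : ((supp (B i)).card : ℝ) ≤ (supp (A i)).card := by exact_mod_cast hsupp i
    have hs' : ((supp (B i)).card : ℝ) / D ≤ ((supp (A i)).card : ℝ) / D :=
      div_le_div_of_nonneg_right hs (by linarith)
    have h5 : C * (1 + Real.log D) * (1 + ((supp (B i)).card : ℝ) / D) ≤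
        C * (1 + Real.log D) * (1 + ((supp (A i)).card : ℝ) / D) :=
      mul_le_mul_of_nonneg_left (by linarith) (by positivity)
    have h6 : |∑ p, B i p * z p| ≤ C * (1 + Real.log D) * (1 + ((supp (B i)).card : ℝ) / D) := hb'
    nlinarith
  · have hz2 : ∀ p, |z' p| ≤ 1 := by
      intro p
      rcases hz1 p with h | h <;> rw [h] <;> norm_num
    by_cases hc : c ≤ n
    · have e1 : ∑ j ∈ univ.filter (fun j : Fin n => (j : ℕ) < c), ye z' j =
          ∑ j ∈ range c, ye z' j := by
        rw [Finset.sum_filter]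
        have e2 : ∑ a : Fin n, (if (a : ℕ) < c then ye z' a else 0) =
            ∑ j ∈ range n, (if j < c then ye z' j else 0) :=
          Fin.sum_univ_eq_sum_range (fun j => if j < c then ye z' j else 0) n
        rw [e2, ← Finset.sum_filter]
        congr 1
        ext j
        simp only [Finset.mem_filter, Finset.mem_range]
        omega
      rw [e1]
      exact prefix_ye z' hz2 c
    · have e1 : ∑ j ∈ univ.filter (fun j : Fin n => (j : ℕ) < c), ye z' j =
          ∑ j ∈ range n, ye z' j := by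
        rw [Finset.filter_true_of_mem (fun j _ => by have := j.2; omega)]
        exact Fin.sum_univ_eq_sum_range (fun j => ye z' j) n
      rw [e1]
      exact prefix_ye z' hz2 n

end Pool.Agent.N421.KD
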