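import Pool.Agent.H320R2.LD.SHIFT
import Pool.Agent.H320R2.LD.MEAN
import Pool.Agent.H320R2.LD.EH

set_option autoImplicit false

/-!
# Response to a shift of one coordinate, mean free mass and mean stiffness, without the hypothesis
that the rows have norm at most one

Adapted from `Pool.Agent.H320R2.LD.SHIFT`, `MEAN`, `EH`.
-/

open MeasureTheory ProbabilityTheory

namespace Pool.Agent.N421.KD

open Pool.Agent.H320R2.LD

open Pool.Agent.H320R2.LD.SHIFT in
/-- response to a shift of one coordinate -/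
theorem shift (hTWO : St_TWO) (hP1 : St_POT1) (hP2 : St_POT2) {V W : Type} [Fintype V] [Fintype W]
    [DecidableEq V] (b : W → V → ℝ) (K w0 : ℝ) (hK : 1 ≤ K) (hw0 : 0 < w0) (hw1 : w0 ≤ 1) (N : ℝ)
    (hN : 1 ≤ N) (hb : ∀ R, ∑ v, b R v ^ 2 ≤ N ^ 2) (δ : ℝ) (hδ : 0 < δ) (hδ2 : N * δ ≤ w0 / 2)
    (v : V) (y z z' : V → ℝ) (hz : VI b (pf K w0) y z)
    (hz' : VI b (pf K w0) (fun u => y u + if u = v then δ else 0) z') :
    δ * (1 - |z v| - 16 * (∑ R, b R v ^ 2 * hf K w0 (eta b z R)) - δ) ≤ z' v - z v := by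
  obtain ⟨-, -, hmono, -, -, -, hlip, -⟩ := hP1 K w0 hK hw0 hw1
  obtain ⟨-, -, hcmp, -⟩ := hP2 K w0 hK hw0 hw1
  set y' : V → ℝ := fun u => y u + if u = v then δ else 0 with hy'
  obtain ⟨-, hen, hnrm, -⟩ := hTWO V W b (pf K w0) hmono y y' z z' hz hz'
  set D : ℝ := z' v - z v with hD
  -- right hand side of the energy inequality
  have hrhs : ∑ u, (y' u - y u) * (z' u - z u) = δ * D := by
    have : ∀ u, (y' u - y u) * (z' u - z u) = if u = v then δ * D else 0 := by
      intro u
      simp only [hy']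
      split_ifs with h
      · subst h; ring
      · ring
    rw [Finset.sum_congr rfl fun u _ => this u]
    simp
  rw [hrhs] at hen
  set e : W → ℝ := fun R => (pf K w0 (eta b z' R) - pf K w0 (eta b z R)) *
    (eta b z' R - eta b z R) with he
  have he0 : ∀ R, 0 ≤ e R := by
    intro R
    simp only [he]
    rcases le_total (eta b z R) (eta b z' R) with h | h
    · exact mul_nonneg (sub_nonneg.2 (hmono h)) (sub_nonneg.2 h)
    · exact mul_nonneg_of_nonpos_of_nonpos (sub_nonpos.2 (hmono h)) (sub_nonpos.2 h)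
  have hE0 : 0 ≤ ∑ R, e R := Finset.sum_nonneg fun R _ => he0 R
  have hDn : D ^ 2 ≤ nsq (z' - z) := by
    unfold nsq
    have := Finset.single_le_sum (f := fun u => (z' - z) u ^ 2) (fun u _ => sq_nonneg _)
      (Finset.mem_univ v)
    simpa [hD] using this
  have hn0 : 0 ≤ nsq (z' - z) := Finset.sum_nonneg fun u _ => sq_nonneg _
  have h3 : D ^ 2 + ∑ R, e R ≤ δ * D := by linarith
  have hD0 : 0 ≤ D := by
    by_contra hc
    push Not at hc
    nlinarith [sq_nonneg D]
  -- the norm of the shift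
  have hny : nrm (y' - y) = δ := by
    unfold nrm nsq
    have : ∀ u, (y' - y) u ^ 2 = if u = v then δ ^ 2 else 0 := by
      intro u
      simp only [hy', Pi.sub_apply]
      split_ifs with h
      · ring
      · ring
    rw [Finset.sum_congr rfl fun u _ => this u]
    simp [Real.sqrt_sq hδ.le]
  rw [hny] at hnrm
  have hnsq : nsq (z' - z) ≤ δ ^ 2 := by
    have h1 : nsq (z' - z) = nrm (z' - z) ^ 2 := (Real.sq_sqrt hn0).symm
    rw [h1]
    exact pow_le_pow_left₀ (Real.sqrt_nonneg _) hnrm 2
  have hDδ : D ≤ δ := by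
    have : D ^ 2 ≤ δ ^ 2 := hDn.trans hnsq
    exact (abs_le_of_sq_le_sq' this hδ.le).2
  set L : ℝ := 16 * ∑ R, b R v ^ 2 * hf K w0 (eta b z R) with hL
  have hL0 : 0 ≤ L := by
    rw [hL]
    exact mul_nonneg (by norm_num)
      (Finset.sum_nonneg fun R _ => mul_nonneg (sq_nonneg _) (hf_nonneg _ _ _))
  -- the clipped cases
  rcases eq_or_lt_of_le (hz.1 v) with hzv | hzv
  · have : δ * (1 - |z v| - L - δ) ≤ 0 := by
      rw [hzv]
      nlinarith
    linarith
  rcases eq_or_lt_of_le (hz'.1 v) with hzv' | hzv'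
  · have h5 : 1 - |z v| ≤ δ := by
      have h6 := abs_sub_abs_le_abs_sub (z' v) (z v)
      rw [hzv', ← hD, abs_of_nonneg hD0] at h6
      linarith
    have : δ * (1 - |z v| - L - δ) ≤ 0 := by
      refine mul_nonpos_of_nonneg_of_nonpos hδ.le ?_
      linarith
    linarith
  -- the free case
  have hfree : ∀ (F c : ℝ), |c| < 1 → (∀ d : ℝ, |d| ≤ 1 → 0 ≤ F * (d - c)) → F = 0 := by
    intro F c hc h
    have h1 := h 1 (by norm_num)
    have h2 := h (-1) (by norm_num)
    rw [abs_lt] at hc
    rcases lt_trichotomy F 0 with hF | hF | hF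
    · nlinarith
    · exact hF
    · nlinarith
  have hF := hfree _ _ hzv (hz.2 v)
  have hF' := hfree _ _ hzv' (hz'.2 v)
  have hy'v : y' v = y v + δ := by simp [hy']
  have h1 : δ = D + ∑ R, b R v * (pf K w0 (eta b z' R) - pf K w0 (eta b z R)) := by
    have : ∑ R, b R v * (pf K w0 (eta b z' R) - pf K w0 (eta b z R)) =
        ∑ R, b R v * pf K w0 (eta b z' R) - ∑ R, b R v * pf K w0 (eta b z R) := by
      rw [← Finset.sum_sub_distrib]
      exact Finset.sum_congr rfl fun R _ => by ring
    rw [this, hD]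
    rw [hy'v] at hF'
    linarith
  -- the row sums move little
  have hη : ∀ R, |eta b z' R - eta b z R| ≤ w0 / 2 := by
    intro R
    have h4 : eta b z' R - eta b z R = ∑ u, b R u * (z' - z) u := by
      unfold eta
      rw [← Finset.sum_sub_distrib]
      exact Finset.sum_congr rfl fun u _ => by simp only [Pi.sub_apply]; ring
    have h5 := Finset.sum_mul_sq_le_sq_mul_sq Finset.univ (b R) (z' - z)
    rw [← h4] at h5
    have h6 : (eta b z' R - eta b z R) ^ 2 ≤ (N * δ) ^ 2 := by
      refine h5.trans ?_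
      have h7 : (∑ u, b R u ^ 2) * ∑ u, (z' - z) u ^ 2 ≤ N ^ 2 * δ ^ 2 :=
        mul_le_mul (hb R) hnsq hn0 (by positivity)
      rw [mul_pow]
      exact h7
    have := abs_le_of_sq_le_sq h6 (by positivity)
    linarith
  have hterm : ∀ R, (b R v * (pf K w0 (eta b z' R) - pf K w0 (eta b z R))) ^ 2 ≤
      (16 * (b R v ^ 2 * hf K w0 (eta b z R))) * e R := by
    intro R
    have hh := hf_nonneg K w0 (eta b z R)
    have hc1 : hf K w0 (eta b z' R) ≤ 16 * hf K w0 (eta b z R) := hcmp _ _ (hη R)
    have key : (pf K w0 (eta b z' R) - pf K w0 (eta b z R)) ^ 2 ≤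
        16 * hf K w0 (eta b z R) * e R := by
      simp only [he]
      rcases le_total (eta b z R) (eta b z' R) with h | h
      · have h7 := hlip _ _ h
        have h8 : max (hf K w0 (eta b z R)) (hf K w0 (eta b z' R)) ≤
            16 * hf K w0 (eta b z R) := max_le (by linarith) hc1
        have h9 := hmono h
        have h10 : pf K w0 (eta b z' R) - pf K w0 (eta b z R) ≤
            16 * hf K w0 (eta b z R) * (eta b z' R - eta b z R) :=
          h7.trans (mul_le_mul_of_nonneg_right h8 (sub_nonneg.2 h))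
        have h11 : 0 ≤ pf K w0 (eta b z' R) - pf K w0 (eta b z R) := sub_nonneg.2 h9
        nlinarith
      · have h7 := hlip _ _ h
        have h8 : max (hf K w0 (eta b z' R)) (hf K w0 (eta b z R)) ≤
            16 * hf K w0 (eta b z R) := max_le hc1 (by linarith)
        have h9 := hmono h
        have h10 : pf K w0 (eta b z R) - pf K w0 (eta b z' R) ≤
            16 * hf K w0 (eta b z R) * (eta b z R - eta b z' R) :=
          h7.trans (mul_le_mul_of_nonneg_right h8 (sub_nonneg.2 h))
        have h11 : 0 ≤ pf K w0 (eta b z R) - pf K w0 (eta b z' R) := sub_nonneg.2 h9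
        nlinarith
    calc (b R v * (pf K w0 (eta b z' R) - pf K w0 (eta b z R))) ^ 2
        = b R v ^ 2 * (pf K w0 (eta b z' R) - pf K w0 (eta b z R)) ^ 2 := by ring
      _ ≤ b R v ^ 2 * (16 * hf K w0 (eta b z R) * e R) :=
          mul_le_mul_of_nonneg_left key (sq_nonneg _)
      _ = (16 * (b R v ^ 2 * hf K w0 (eta b z R))) * e R := by ring
  have h2 := sum_cs Finset.univ _ (fun R => 16 * (b R v ^ 2 * hf K w0 (eta b z R))) e
    (fun R => mul_nonneg (by norm_num) (mul_nonneg (sq_nonneg _) (hf_nonneg _ _ _))) he0 hterm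
  rw [← Finset.mul_sum, ← hL] at h2
  have h12 := final hδ hL0 hE0 h1 h2 h3
  have h13 : δ * (1 - |z v| - L - δ) ≤ δ * (1 - L) := by
    refine mul_le_mul_of_nonneg_left ?_ hδ.le
    have := abs_nonneg (z v)
    linarith
  linarith


open Pool.Agent.H320R2.LD.MEAN in
/-- the expected free mass -/
theorem mean (hSH : St_SH) (hTWO : St_TWO) (hSOL : St_SOL) (hP1 : St_POT1) (hP2 : St_POT2)
    {V W : Type} [Fintype V] [Fintype W] (b : W → V → ℝ) (K w0 M δ : ℝ)
    (z : (V → ℝ) → (V → ℝ)) (hK : 1 ≤ K) (hw0 : 0 < w0) (hw1 : w0 ≤ 1) (N : ℝ) (hN : 1 ≤ N)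
    (hrow : ∀ R, ∑ v, b R v ^ 2 ≤ N ^ 2) (hz : ∀ y, VI b (pf K w0) y (z y)) (hM : 0 < M)
    (hδ : 0 < δ) (hδw : N * δ ≤ w0 / 2)
    (hint : ∀ R, Integrable (fun g => hf K w0 (eta b (z (M • g)) R)) (gam V)) (v : V) :
    ∫ g, (1 - |z (M • g) v|) ∂(gam V)
      ≤ 1 / M + 16 * (∑ R, b R v ^ 2 * ∫ g, hf K w0 (eta b (z (M • g)) R) ∂(gam V)) + δ := by
  classical
  obtain ⟨-, -, hLip, -, -, -⟩ := hSOL V W b K w0 z hK hw0 hw1 hz
  set f : (V → ℝ) → ℝ := fun g => z (M • g) v with hfdef
  have hsm : ∀ x : V → ℝ, ∀ a : ℝ, M • (fun u => x u + if u = v then a else 0)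
      = fun u => (M • x) u + if u = v then M * a else 0 := by
    intro x a
    funext u
    by_cases h : u = v <;> simp [h, mul_add]
  have hfL : ∀ x y, |f x - f y| ≤ M * nrm (x - y) := by
    intro x y
    have := hLip v (M • y) (M • x)
    rw [← smul_sub, nrm_smul M hM.le] at this
    exact this
  have hfc : Continuous f := cont_of_lip hfL
  have hf1 : ∀ x, |f x| ≤ 1 := fun x => (hz (M • x)).1 v
  have hmono : ∀ x : V → ℝ, ∀ a : ℝ, 0 ≤ a →
      f x ≤ f (fun u => x u + if u = v then a else 0) := by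
    intro x a ha
    rcases ha.eq_or_lt with h0 | hpos
    · subst h0; simp [hfdef]
    · have h2 := (hTWO V W b (pf K w0) (pf_mono hw0) (M • x)
        (M • (fun u => x u + if u = v then a else 0)) _ _ (hz _) (hz _)).2.1
      have h3 : ∑ u, ((M • (fun u => x u + if u = v then a else 0)) u - (M • x) u)
          * (z (M • (fun u => x u + if u = v then a else 0)) u - z (M • x) u)
          = M * a * (f (fun u => x u + if u = v then a else 0) - f x) := by
        rw [hsm]
        rw [Finset.sum_eq_single v]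
        · simp [hfdef, hsm]
        · intro u _ hu; simp [hu]
        · intro h; exact absurd (Finset.mem_univ v) h
      rw [h3] at h2
      have h4 : 0 ≤ ∑ R, (pf K w0 (eta b (z (M • (fun u => x u + if u = v then a else 0))) R)
          - pf K w0 (eta b (z (M • x)) R))
          * (eta b (z (M • (fun u => x u + if u = v then a else 0))) R
            - eta b (z (M • x)) R) := by
        refine Finset.sum_nonneg fun R _ => ?_
        rcases le_total (eta b (z (M • (fun u => x u + if u = v then a else 0))) R)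
          (eta b (z (M • x)) R) with h | h
        · have := pf_mono (K := K) hw0 h
          nlinarith
        · have := pf_mono (K := K) hw0 h
          nlinarith
      have h5 := nsq_nonneg (z (M • (fun u => x u + if u = v then a else 0)) - z (M • x))
      have h6 : 0 ≤ M * a * (f (fun u => x u + if u = v then a else 0) - f x) := by linarith
      have h7 : 0 < M * a := by positivity
      have := nonneg_of_mul_nonneg_right h6 h7
      linarith
  have hsh := hSH V f v (δ / M) (by positivity) hfc hf1 hmono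
  -- pointwise lower bound
  have hpt : ∀ x, δ * (1 - |f x| - 16 * (∑ R, b R v ^ 2 * hf K w0 (eta b (z (M • x)) R)) - δ)
      ≤ f (fun u => x u + if u = v then δ / M else 0) - f x := by
    intro x
    have h1 := hz (M • (fun u => x u + if u = v then δ / M else 0))
    rw [hsm] at h1
    have h2 : M * (δ / M) = δ := by field_simp
    rw [h2] at h1
    have h3 := shift hTWO hP1 hP2 b K w0 hK hw0 hw1 N hN hrow δ hδ hδw v (M • x) (z (M • x)) _ (hz _) h1
    have h4 : f (fun u => x u + if u = v then δ / M else 0)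
        = z (fun u => (M • x) u + if u = v then δ else 0) v := by
      simp only [hfdef]
      rw [hsm, h2]
    rw [h4]
    exact h3
  have hI1 : Integrable (fun x => 1 - |f x|) (gam V) :=
    bdd_integrable (by fun_prop) (B := 1) fun x => by
      have := hf1 x
      have h0 := abs_nonneg (f x)
      rw [abs_le]; constructor <;> linarith
  have hI2 : Integrable (fun x => ∑ R, b R v ^ 2 * hf K w0 (eta b (z (M • x)) R)) (gam V) :=
    integrable_finsetSum _ fun R _ => (hint R).const_mul _
  have hI3 : Integrable (fun x => f (fun u => x u + if u = v then δ / M else 0) - f x)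
      (gam V) := by
    refine bdd_integrable (B := 2) ?_ ?_
    · refine Continuous.sub (hfc.comp ?_) hfc
      refine continuous_pi fun u => ?_
      exact (continuous_apply u).add continuous_const
    · intro x
      have h1 := abs_le.1 (hf1 (fun u => x u + if u = v then δ / M else 0))
      have h2 := abs_le.1 (hf1 x)
      rw [abs_le]; constructor <;> linarith [h1.1, h1.2, h2.1, h2.2]
  have hI4 : Integrable (fun x => δ * (1 - |f x|
      - 16 * (∑ R, b R v ^ 2 * hf K w0 (eta b (z (M • x)) R)) - δ)) (gam V) :=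
    ((hI1.sub (hI2.const_mul 16)).sub (integrable_const δ)).const_mul δ
  have hle := integral_mono hI4 hI3 hpt
  have heq : ∫ x, δ * (1 - |f x|
      - 16 * (∑ R, b R v ^ 2 * hf K w0 (eta b (z (M • x)) R)) - δ) ∂(gam V)
      = δ * ((∫ x, (1 - |f x|) ∂(gam V))
        - 16 * (∑ R, b R v ^ 2 * ∫ x, hf K w0 (eta b (z (M • x)) R) ∂(gam V)) - δ) := by
    rw [integral_const_mul]
    congr 1
    have hI2' : Integrable (fun x => 16 * ∑ R, b R v ^ 2 * hf K w0 (eta b (z (M • x)) R))
        (gam V) := hI2.const_mul 16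
    have hI5 : Integrable (fun x => 1 - |f x|
        - 16 * ∑ R, b R v ^ 2 * hf K w0 (eta b (z (M • x)) R)) (gam V) := hI1.sub hI2'
    rw [integral_sub hI5 (integrable_const δ), integral_sub hI1 hI2', integral_const_mul,
      integral_finsetSum _ fun R _ => (hint R).const_mul _]
    simp only [integral_const_mul, integral_const, probReal_univ, smul_eq_mul, one_mul]
  rw [heq] at hle
  have hfin := hle.trans hsh
  have h8 : (∫ x, (1 - |f x|) ∂(gam V))
        - 16 * (∑ R, b R v ^ 2 * ∫ x, hf K w0 (eta b (z (M • x)) R) ∂(gam V)) - δ ≤ 1 / M := by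
    have : δ / M = δ * (1 / M) := by ring
    rw [this] at hfin
    exact le_of_mul_le_mul_left hfin hδ
  simp only [hfdef] at h8
  linarith


open Pool.Agent.H320R2.LD.EH in
/-- the mean stiffness is bounded, for all rows -/
theorem meanStiff (h1 : St_SOL) (h2 : St_MOM) (h3 : St_POT2) : ∀ M : ℝ, 0 < M → ∃ C : ℝ, 0 < C ∧
    ∀ (V W : Type) [Fintype V] [Fintype W] (b : W → V → ℝ) (K w0 : ℝ)
    (z : (V → ℝ) → (V → ℝ)), 1 ≤ K → 0 < w0 → w0 ≤ 1 → (∀ y, VI b (pf K w0) y (z y)) →
    ∀ R, Integrable (fun g => hf K w0 (eta b (z (M • g)) R)) (gam V) ∧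
      ∫ g, hf K w0 (eta b (z (M • g)) R) ∂(gam V) ≤ C := by
  intro M hM
  obtain ⟨C8, hC8, hmom⟩ := h2
  refine ⟨2 ^ 8 * (2 + C8 * (M / 2) ^ 8), by positivity, ?_⟩
  intro V W _ _ b K w0 z hK hw0 hw1 hz R
  obtain ⟨hodd, hlip, -, -, -, hth⟩ := h1 V W b K w0 z hK hw0 hw1 hz
  obtain ⟨-, hq, -, -⟩ := h3 K w0 hK hw0 hw1
  obtain ⟨f, hfd⟩ : ∃ f : (V → ℝ) → ℝ, f = fun g => eta b (z (M • g)) R := ⟨_, rfl⟩
  have hfapp : ∀ g, f g = eta b (z (M • g)) R := fun g => by rw [hfd]
  have hfodd : ∀ x, f (-x) = - f x := by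
    intro x
    rw [hfapp, hfapp, smul_neg, hodd, EH.eta_neg]
  have hgL : Lip (M / 2) (fun g => th K w0 (f g)) := by
    intro x y
    have := hth R (M • y) (M • x)
    rw [← smul_sub, EH.nrm_smul M hM] at this
    simp only [hfapp]
    linarith
  have hgodd : ∀ x, (fun g => th K w0 (f g)) (-x) = - (fun g => th K w0 (f g)) x := by
    intro x
    simp only [hfodd, EH.th_neg]
  obtain ⟨-, i2, e2, -, -⟩ := hmom V _ (M / 2) (by positivity) hgL hgodd
  have hzc : ∀ v, Continuous (fun g => z (M • g) v) := by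
    intro v
    have hL : Lip M (fun g => z (M • g) v) := by
      intro x y
      have h5 := (h1 V W b K w0 z hK hw0 hw1 hz).2.2.1 v (M • y) (M • x)
      rw [← smul_sub, EH.nrm_smul M hM] at h5
      exact h5
    exact EH.continuous_of_Lip hL
  have hcont : Continuous f := by
    rw [hfd]
    unfold eta
    exact continuous_finsetSum _ fun v _ => continuous_const.mul (hzc v)
  have hcont2 : Continuous (fun g => hf K w0 (f g)) := (EH.continuous_hf K w0 hw0).comp hcont
  have hnn : ∀ x, 0 ≤ hf K w0 x := fun x => by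
    unfold hf
    have := EH.wf_pos K w0 hw0 x
    positivity
  have hbd : ∀ x, hf K w0 x ≤ (w0⁻¹) ^ 4 := by
    intro x
    unfold hf
    refine pow_le_pow_left₀ (inv_nonneg.2 (EH.wf_pos K w0 hw0 x).le) ?_ 4
    exact inv_anti₀ hw0 (le_max_right _ _)
  have hint : Integrable (fun g => hf K w0 (f g)) (gam V) := by
    refine Integrable.mono' (integrable_const ((w0⁻¹) ^ 4)) hcont2.aestronglyMeasurable ?_
    refine Filter.Eventually.of_forall fun g => ?_
    rw [Real.norm_of_nonneg (hnn _)]
    exact hbd _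
  have hpt : ∀ x : ℝ, hf K w0 x ≤ 2 ^ 8 * (2 + (th K w0 x) ^ 8) := by
    intro x
    have hw := EH.wf_pos K w0 hw0 x
    have h8 : 0 ≤ (th K w0 x) ^ 8 := by positivity
    by_cases h : 1 ≤ wf K w0 x
    · have h4 : hf K w0 x ≤ 1 := by
        unfold hf
        exact pow_le_one₀ (inv_nonneg.2 hw.le) (inv_le_one_of_one_le₀ h)
      linarith
    · push Not at h
      have h5 : 1 ≤ (wf K w0 x)⁻¹ := (one_le_inv₀ hw).2 h.le
      have h6 := hq x ((wf K w0 x)⁻¹) h5 (by rw [inv_inv]; exact le_max_right _ _)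
        (by rw [inv_inv])
      have h7 : (wf K w0 x)⁻¹ ≤ |th K w0 x| + 1 := by linarith
      unfold hf
      calc ((wf K w0 x)⁻¹) ^ 4 ≤ ((wf K w0 x)⁻¹) ^ 8 := pow_le_pow_right₀ h5 (by norm_num)
        _ ≤ (|th K w0 x| + 1) ^ 8 := pow_le_pow_left₀ (by positivity) h7 8
        _ ≤ 2 ^ (8 - 1) * (|th K w0 x| ^ 8 + 1 ^ 8) := add_pow_le (abs_nonneg _) zero_le_one 8
        _ ≤ 2 ^ 8 * (2 + (th K w0 x) ^ 8) := by
            have : |th K w0 x| ^ 8 = (th K w0 x) ^ 8 := by
              have h9 : Even 8 := by decide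
              exact h9.pow_abs _
            rw [this]
            norm_num
            linarith
  have hint2 : Integrable (fun g => (2:ℝ) ^ 8 * (2 + (th K w0 (f g)) ^ 8)) (gam V) :=
    ((integrable_const 2).add i2).const_mul _
  have hfin : ∫ g, hf K w0 (f g) ∂(gam V) ≤ 2 ^ 8 * (2 + C8 * (M / 2) ^ 8) := by
    refine (integral_mono hint hint2 (fun g => hpt (f g))).trans ?_
    rw [integral_const_mul, integral_add (integrable_const 2) i2]
    simp only [integral_const, smul_eq_mul]
    have hu : (gam V).real Set.univ = 1 := probReal_univ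
    rw [hu]
    refine mul_le_mul_of_nonneg_left ?_ (by positivity)
    linarith
  rw [hfd] at hint hfin
  exact ⟨hint, hfin⟩

end Pool.Agent.N421.KD
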