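import Pool.Agent.N421.KD.Orders

set_option autoImplicit false

/-!
# Orderings with bounded partial sums (Steinitz), from signs with bounded prefix sums
-/

open Finset

namespace Pool.Agent.N421.KD

open Pool.Agent.R959.LD2

noncomputable section

theorem take_filter_aux {α : Type} (p : α → Bool) (l : List α) :
    ∀ m : ℕ, ∃ m', (l.filter p).take m = (l.take m').filter p := by
  induction l with
  | nil => intro m; exact ⟨0, by simp⟩
  | cons x l ih =>
    intro m
    cases hx : p x with
    | true =>
      cases m with
      | zero => exact ⟨0, by simp⟩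
      | succ m =>
        obtain ⟨m', hm'⟩ := ih m
        refine ⟨m' + 1, ?_⟩
        rw [List.filter_cons_of_pos hx, List.take_succ_cons, List.take_succ_cons,
          List.filter_cons_of_pos hx, hm']
    | false =>
      obtain ⟨m', hm'⟩ := ih m
      refine ⟨m' + 1, ?_⟩
      have hx' : ¬ p x = true := by rw [hx]; simp
      rw [List.filter_cons_of_neg hx', List.take_succ_cons, List.filter_cons_of_neg hx', hm']

theorem sum_filter_pos {α : Type} (p : α → Bool) (x f : α → ℝ)
    (h1 : ∀ v, p v = true → x v = 1) (h2 : ∀ v, p v = false → x v = -1) (l : List α) :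
    ((l.filter p).map f).sum = ((l.map f).sum + (l.map (fun v => f v * x v)).sum) / 2 := by
  induction l with
  | nil => simp
  | cons y l ih =>
    cases hy : p y with
    | true =>
      rw [List.filter_cons_of_pos hy, List.map_cons, List.sum_cons, ih, List.map_cons,
        List.sum_cons, List.map_cons, List.sum_cons, h1 y hy]
      ring
    | false =>
      have hy' : ¬ p y = true := by rw [hy]; simp
      rw [List.filter_cons_of_neg hy', ih, List.map_cons, List.sum_cons, List.map_cons,
        List.sum_cons, h2 y hy]
      ring

theorem sum_filter_neg {α : Type} (p : α → Bool) (x f : α → ℝ)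
    (h1 : ∀ v, p v = true → x v = 1) (h2 : ∀ v, p v = false → x v = -1) (l : List α) :
    ((l.filter (fun v => !p v)).map f).sum =
      ((l.map f).sum - (l.map (fun v => f v * x v)).sum) / 2 := by
  induction l with
  | nil => simp
  | cons y l ih =>
    cases hy : p y with
    | true =>
      have hy' : ¬ (fun v => !p v) y = true := by simp [hy]
      rw [List.filter_cons_of_neg (p := fun v => !p v) hy', ih, List.map_cons, List.sum_cons, List.map_cons,
        List.sum_cons, h1 y hy]
      ring
    | false =>
      have hy' : (fun v => !p v) y = true := by simp [hy]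
      rw [List.filter_cons_of_pos (p := fun v => !p v) hy', List.map_cons, List.sum_cons, ih, List.map_cons,
        List.sum_cons, List.map_cons, List.sum_cons, h2 y hy]
      ring

/-- Chobanyan's argument: signs with bounded prefix sums in every order give an ordering with
bounded partial sums. -/
theorem chobanyan (n : ℕ) (W : Type) [Finite W] (A : W → Fin n → ℝ) (c : W → ℝ) (B : ℝ)
    (hB : 0 ≤ B) (hc : ∀ k, 0 < c k) (h0 : ∀ k, ∑ v, A k v = 0)
    (h : ∀ l : List (Fin n), l.Perm (List.finRange n) → ∃ x : Fin n → ℝ,
      (∀ v, x v = 1 ∨ x v = -1) ∧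
      ∀ k m, |((l.take m).map (fun v => A k v * x v)).sum| ≤ B * c k) :
    ∃ l : List (Fin n), l.Perm (List.finRange n) ∧
      ∀ k m, |((l.take m).map (A k)).sum| ≤ B * c k := by
  classical
  set F : List (Fin n) → ℝ := fun l =>
    ⨆ p : Fin (n + 1) × W, |((l.take (p.1 : ℕ)).map (A p.2)).sum| / c p.2 with hF
  have hle : ∀ l : List (Fin n), l.Perm (List.finRange n) →
      ∀ k m, |((l.take m).map (A k)).sum| ≤ F l * c k := by
    intro l hl k m
    have hlen : l.length = n := by rw [hl.length_eq, List.length_finRange]
    have e1 : l.take m = l.take (min m n) := by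
      rcases le_total m n with h1 | h1
      · rw [min_eq_left h1]
      · rw [min_eq_right h1, List.take_of_length_le (by omega), List.take_of_length_le (by omega)]
    have h2 := le_ciSup (f := fun p : Fin (n + 1) × W =>
      |((l.take (p.1 : ℕ)).map (A p.2)).sum| / c p.2) (Set.finite_range _).bddAbove
      (⟨min m n, by omega⟩, k)
    rw [div_le_iff₀ (hc k)] at h2
    rw [e1]
    exact h2
  obtain ⟨l, hl, hmin⟩ := Finset.exists_min_image (List.finRange n).permutations.toFinset F
    ⟨List.finRange n, by rw [List.mem_toFinset, List.mem_permutations]⟩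
  rw [List.mem_toFinset, List.mem_permutations] at hl
  obtain ⟨x, x1, x2⟩ := h l hl
  set p : Fin n → Bool := fun v => decide (x v = 1) with hp
  have p1 : ∀ v, p v = true → x v = 1 := fun v hv => by simpa [hp] using hv
  have p2 : ∀ v, p v = false → x v = -1 := fun v hv => by
    have : x v ≠ 1 := by simpa [hp] using hv
    exact (x1 v).resolve_left this
  set L1 := l.filter p with hL1
  set L2 := l.filter (fun v => !p v) with hL2
  set l' := L1 ++ L2.reverse with hl'
  have hperm : l'.Perm l := by
    refine ((List.reverse_perm L2).append_left L1).trans ?_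
    exact List.filter_append_perm p l
  have htot : ∀ k, (l'.map (A k)).sum = 0 := by
    intro k
    have e1 := ((hperm.trans hl).map (A k)).sum_eq
    rw [e1, ← h0 k]
    exact (Fin.sum_univ_def (A k)).symm
  have hF0 : 0 ≤ F l := Real.iSup_nonneg fun q => div_nonneg (abs_nonneg _) (hc q.2).le
  have hbd : ∀ k m, |((l'.take m).map (A k)).sum| ≤ (F l + B) / 2 * c k := by
    intro k m
    have hS : ∀ m', |((l.take m').map (A k)).sum| ≤ F l * c k := hle l hl k
    have hT : ∀ m', |((l.take m').map (fun v => A k v * x v)).sum| ≤ B * c k := x2 k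
    have hP : ∀ j, |((L1.take j).map (A k)).sum| ≤ (F l + B) / 2 * c k := by
      intro j
      obtain ⟨m', hm'⟩ := take_filter_aux p l j
      rw [hL1, hm', sum_filter_pos p x (A k) p1 p2, abs_div, abs_of_pos (by norm_num : (0:ℝ) < 2)]
      have := abs_add_le ((l.take m').map (A k)).sum ((l.take m').map (fun v => A k v * x v)).sum
      have e1 := hS m'
      have e2 := hT m'
      linarith
    have hN : ∀ j, |((L2.take j).map (A k)).sum| ≤ (F l + B) / 2 * c k := by
      intro j
      obtain ⟨m', hm'⟩ := take_filter_aux (fun v => !p v) l j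
      rw [hL2, hm', sum_filter_neg p x (A k) p1 p2, abs_div, abs_of_pos (by norm_num : (0:ℝ) < 2)]
      have := abs_sub ((l.take m').map (A k)).sum ((l.take m').map (fun v => A k v * x v)).sum
      have e1 := hS m'
      have e2 := hT m'
      linarith
    rcases le_total m L1.length with h1 | h1
    · have e1 : l'.take m = L1.take m := by
        rw [hl', List.take_append_of_le_length h1]
      rw [e1]
      exact hP m
    · have e1 : ((l'.take m).map (A k)).sum = - ((l'.drop m).map (A k)).sum := by
        have e2 := htot k
        rw [← List.take_append_drop m l', List.map_append, List.sum_append] at e2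
        linarith
      have e3 : l'.drop m = (L2.take (L2.length - (m - L1.length))).reverse := by
        rw [hl', List.drop_append, List.drop_of_length_le h1, List.nil_append, List.drop_reverse]
      rw [e1, abs_neg, e3, List.map_reverse, List.sum_reverse]
      exact hN _
  have hFl' : F l' ≤ (F l + B) / 2 := by
    refine Real.iSup_le (fun q => ?_) (by linarith)
    rw [div_le_iff₀ (hc q.2)]
    exact hbd q.2 q.1
  have h1 := hmin l' (by
    rw [List.mem_toFinset, List.mem_permutations]
    exact hperm.trans hl)
  have hFB : F l ≤ B := by linarith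
  refine ⟨l, hl, fun k m => (hle l hl k m).trans ?_⟩
  exact mul_le_mul_of_nonneg_right hFB (hc k).le

/-- Steinitz for sparse vectors in the sup norm -/
theorem steinitz : ∃ C : ℝ, 0 < C ∧ ∀ (D : ℕ), 1 ≤ D →
    ∀ (n : ℕ) (W : Type) [Fintype W] (A : W → Fin n → ℝ),
    (∀ v, ∑ R, A R v ^ 2 ≤ 1) → (∀ R, ∑ v, A R v = 0) →
    ∃ σ : Equiv.Perm (Fin n), ∀ (R : W) (m : ℕ),
      |∑ i ∈ univ.filter (fun i : Fin n => (i : ℕ) < m), A R (σ i)| ≤
        C * (1 + Real.log D) ^ (5 / 2 : ℝ) * (1 + ((supp (A R)).card : ℝ) / D) := by
  classical
  obtain ⟨C, hC, h⟩ := orders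
  refine ⟨C, hC, ?_⟩
  intro D hD n W _ A hcol hzero
  have hD1 : (1 : ℝ) ≤ D := by exact_mod_cast hD
  have hD0 : (0 : ℝ) < D := by linarith
  have hlog : 0 ≤ Real.log D := Real.log_nonneg hD1
  have hL : 0 ≤ (1 + Real.log D) ^ (5 / 2 : ℝ) := Real.rpow_nonneg (by linarith) _
  obtain ⟨l, hl, hl2⟩ := chobanyan n W A (fun R => 1 + ((supp (A R)).card : ℝ) / D)
    (C * (1 + Real.log D) ^ (5 / 2 : ℝ)) (by positivity) (fun R => by positivity) hzero (by
      intro l hl
      have hnd : l.Nodup := hl.nodup_iff.2 (List.nodup_finRange n)
      have hmem : ∀ v, v ∈ l := fun v => hl.mem_iff.2 (List.mem_finRange v)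
      obtain ⟨x, x1, -, x3⟩ := h D hD (Fin n) W A (fun _ => 0) (fun _ v => l.idxOf v) hcol
        (by simp) (fun R u v huv => (List.idxOf_inj (hmem u)).1 huv)
      refine ⟨x, x1, fun R m => ?_⟩
      have e1 : ((l.take m).map (fun v => A R v * x v)).sum =
          ∑ v ∈ univ.filter (fun v => l.idxOf v < m), A R v * (x v - 0) := by
        rw [← List.sum_toFinset _ (hnd.sublist (List.take_sublist m l))]
        refine Finset.sum_congr ?_ fun v _ => by rw [sub_zero]
        ext v
        rw [List.mem_toFinset, List.mem_take_iff_idxOf_lt (hmem v), Finset.mem_filter]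
        simp
      rw [e1]
      refine (x3 R m).trans ?_
      refine mul_le_mul_of_nonneg_left ?_ (by positivity)
      have h2 : (((supp (fun v => A R v * (1 - |(0:ℝ)|))).filter
          (fun v => l.idxOf v < m)).card : ℝ) ≤ (supp (A R)).card := by
        rw [Nat.cast_le]
        refine (Finset.card_filter_le _ _).trans ?_
        simp
      have := div_le_div_of_nonneg_right h2 hD0.le
      linarith)
  have hlen : l.length = n := by rw [hl.length_eq, List.length_finRange]
  have hnd : l.Nodup := hl.nodup_iff.2 (List.nodup_finRange n)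
  set s : Fin n → Fin n := fun i => l.get (i.cast hlen.symm) with hs
  have hinj : Function.Injective s := by
    intro i j hij
    have := (List.nodup_iff_injective_get.1 hnd) hij
    simpa [Fin.ext_iff] using this
  refine ⟨Equiv.ofBijective s (Finite.injective_iff_bijective.1 hinj), fun R m => ?_⟩
  have hl3 : l = List.ofFn s := by
    apply List.ext_get
    · rw [hlen, List.length_ofFn]
    · intro i h1 h2
      simp [hs]
  have e1 : ∑ i ∈ univ.filter (fun i : Fin n => (i : ℕ) < m),
      A R (Equiv.ofBijective s (Finite.injective_iff_bijective.1 hinj) i) =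
      ((l.take m).map (A R)).sum := by
    rw [List.map_take]
    conv_rhs => rw [hl3, List.map_ofFn, List.sum_take_ofFn]
    rfl
  rw [e1]
  exact hl2 R m

end

end Pool.Agent.N421.KD
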